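import Mathlib

/-!
# Set structures and first-order definability calculus

For a set `A : ZFSet` the type `↥A` is a structure for the language with one binary relation.
-/

open FirstOrder FirstOrder.Language

universe u

namespace Pool.Agent.Helper90.Gss

/-- The relation symbols of the language of set theory: one binary symbol. -/
inductive MemRel : ℕ → Type
  | mem : MemRel 2

/-- The first-order language of set theory, with a single binary relation symbol. -/
def LSet : FirstOrder.Language := ⟨fun _ => Empty, MemRel⟩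

/-- Interpretation of the membership symbol along a map to `ZFSet`. -/
def memRelMap {X : Type*} (c : X → ZFSet.{u}) : ∀ {n : ℕ}, MemRel n → (Fin n → X) → Prop
  | _, MemRel.mem, x => c (x 0) ∈ c (x 1)

/-- Each set `A` is a structure for the language of set theory, with true membership. -/
instance setStructure (A : ZFSet.{u}) : LSet.Structure ↥A where
  funMap := fun f => Empty.elim f
  RelMap := fun r x => memRelMap (fun y : ↥A => (y : ZFSet)) r x

/-- The whole universe as a structure. -/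
instance univStructure : LSet.Structure ZFSet.{u} where
  funMap := fun f => Empty.elim f
  RelMap := fun r x => memRelMap (fun y : ZFSet => y) r x

/-- The membership symbol. -/
abbrev memSym : LSet.Relations 2 := MemRel.mem

theorem relMap_mem {A : ZFSet.{u}} (x : Fin 2 → ↥A) :
    Structure.RelMap memSym x ↔ ((x 0 : ↥A) : ZFSet) ∈ ((x 1 : ↥A) : ZFSet) := Iff.rfl

/-- Definable predicates: uniformly first-order definable over all transitive sets. -/
def Dl {α : Type} (P : ZFSet.{u} → (α → ZFSet.{u}) → Prop) : Prop :=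
  ∃ φ : LSet.Formula α, ∀ U : ZFSet.{u}, U.IsTransitive → ∀ s : α → ↥U,
    φ.Realize s ↔ P U (fun i => (s i : ZFSet.{u}))

namespace Dl

variable {α β : Type} {P Q : ZFSet.{u} → (α → ZFSet.{u}) → Prop}

theorem congr (h : Dl P)
    (e : ∀ U : ZFSet.{u}, U.IsTransitive → ∀ s : α → ZFSet.{u}, (∀ i, s i ∈ U) → (P U s ↔ Q U s)) :
    Dl Q := by
  obtain ⟨φ, hφ⟩ := h
  exact ⟨φ, fun U hU s => (hφ U hU s).trans (e U hU _ fun i => (s i).2)⟩

theorem mem (i j : α) : Dl.{u} (fun _ s => s i ∈ s j) := by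
  refine ⟨memSym.formula₂ (Term.var i) (Term.var j), fun U _ s => ?_⟩
  rw [Formula.realize_rel₂, relMap_mem]
  exact Iff.rfl

theorem eq (i j : α) : Dl.{u} (fun _ s => s i = s j) := by
  refine ⟨(Term.var i).equal (Term.var j), fun U _ s => ?_⟩
  rw [Formula.realize_equal]
  exact Subtype.ext_iff

theorem true : Dl.{u} (fun _ (_ : α → ZFSet.{u}) => True) :=
  ⟨⊤, fun U _ s => by simp⟩

theorem false : Dl.{u} (fun _ (_ : α → ZFSet.{u}) => False) :=
  ⟨⊥, fun U _ s => by simp⟩

theorem not (h : Dl P) : Dl (fun U s => ¬ P U s) := by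
  obtain ⟨φ, hφ⟩ := h
  refine ⟨φ.not, fun U hU s => ?_⟩
  rw [Formula.realize_not, hφ U hU]

theorem imp (h : Dl P) (h' : Dl Q) : Dl (fun U s => P U s → Q U s) := by
  obtain ⟨φ, hφ⟩ := h
  obtain ⟨ψ, hψ⟩ := h'
  refine ⟨φ.imp ψ, fun U hU s => ?_⟩
  rw [Formula.realize_imp, hφ U hU, hψ U hU]

theorem and (h : Dl P) (h' : Dl Q) : Dl (fun U s => P U s ∧ Q U s) := by
  obtain ⟨φ, hφ⟩ := h
  obtain ⟨ψ, hψ⟩ := h'
  refine ⟨φ ⊓ ψ, fun U hU s => ?_⟩
  rw [Formula.realize_inf, hφ U hU, hψ U hU]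

theorem or (h : Dl P) (h' : Dl Q) : Dl (fun U s => P U s ∨ Q U s) := by
  obtain ⟨φ, hφ⟩ := h
  obtain ⟨ψ, hψ⟩ := h'
  refine ⟨φ ⊔ ψ, fun U hU s => ?_⟩
  rw [Formula.realize_sup, hφ U hU, hψ U hU]

theorem iff (h : Dl P) (h' : Dl Q) : Dl (fun U s => P U s ↔ Q U s) := by
  obtain ⟨φ, hφ⟩ := h
  obtain ⟨ψ, hψ⟩ := h'
  refine ⟨φ.iff ψ, fun U hU s => ?_⟩
  rw [Formula.realize_iff, hφ U hU, hψ U hU]

theorem relabel {R : ZFSet.{u} → (β → ZFSet.{u}) → Prop} (g : β → α) (h : Dl R) :
    Dl (fun U (s : α → ZFSet.{u}) => R U (fun i => s (g i))) := by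
  obtain ⟨φ, hφ⟩ := h
  refine ⟨φ.relabel g, fun U hU s => ?_⟩
  rw [Formula.realize_relabel, hφ U hU]
  rfl

/-- Universal quantification over finitely many variables ranging over the structure. -/
theorem alls [Finite β] {R : ZFSet.{u} → (α ⊕ β → ZFSet.{u}) → Prop} (h : Dl R) :
    Dl (fun U (s : α → ZFSet.{u}) =>
      ∀ x : β → ZFSet.{u}, (∀ i, x i ∈ U) → R U (Sum.elim s x)) := by
  obtain ⟨φ, hφ⟩ := h
  refine ⟨φ.iAlls β, fun U hU s => ?_⟩
  rw [Formula.realize_iAlls]
  constructor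
  · intro H x hx
    have := (hφ U hU _).1 (H (fun i => ⟨x i, hx i⟩))
    convert this using 1
    funext a
    cases a <;> rfl
  · intro H x
    refine (hφ U hU _).2 ?_
    convert H (fun i => (x i : ZFSet)) (fun i => (x i).2) using 1
    funext a
    cases a <;> rfl

theorem all {P : ZFSet.{u} → ZFSet.{u} → (α → ZFSet.{u}) → Prop}
    (h : Dl (α := Option α) (fun U s => P U (s none) (fun i => s (some i)))) :
    Dl (fun U (s : α → ZFSet.{u}) => ∀ x ∈ U, P U x s) := by
  have h1 := alls (α := α) (β := Unit) (relabel (α := α ⊕ Unit) (β := Option α)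
    (fun o => match o with
      | none => Sum.inr ()
      | some a => Sum.inl a) h)
  refine h1.congr fun U _ s _ => ?_
  constructor
  · intro H x hx
    exact H (fun _ => x) (fun _ => hx)
  · intro H x hx
    exact H (x ()) (hx ())

theorem ex {P : ZFSet.{u} → ZFSet.{u} → (α → ZFSet.{u}) → Prop}
    (h : Dl (α := Option α) (fun U s => P U (s none) (fun i => s (some i)))) :
    Dl (fun U (s : α → ZFSet.{u}) => ∃ x ∈ U, P U x s) := by
  have h1 := (all (P := fun U x s => ¬ P U x s) h.not).not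
  refine h1.congr fun U _ s _ => ?_
  push Not
  rfl

theorem ball {P : ZFSet.{u} → ZFSet.{u} → (α → ZFSet.{u}) → Prop} (i : α)
    (h : Dl (α := Option α) (fun U s => P U (s none) (fun i => s (some i)))) :
    Dl (fun U (s : α → ZFSet.{u}) => ∀ x ∈ s i, P U x s) := by
  have h1 := all (P := fun U x s => x ∈ s i → P U x s) ((mem none (some i)).imp h)
  refine h1.congr fun U hU s hs => ?_
  constructor
  · intro H x hx
    exact H x (hU.mem_trans hx (hs i)) hx
  · intro H x _ hx
    exact H x hx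

theorem bex {P : ZFSet.{u} → ZFSet.{u} → (α → ZFSet.{u}) → Prop} (i : α)
    (h : Dl (α := Option α) (fun U s => P U (s none) (fun i => s (some i)))) :
    Dl (fun U (s : α → ZFSet.{u}) => ∃ x ∈ s i, P U x s) := by
  have h1 := (ball (P := fun U x s => ¬ P U x s) i h.not).not
  refine h1.congr fun U _ s _ => ?_
  push Not
  rfl

theorem subset (i j : α) : Dl.{u} (fun _ s => s i ⊆ s j) :=
  (ball (P := fun _ x s => x ∈ s j) i (mem none (some j))).congr fun _ _ _ _ => Iff.rfl

end Dl

/-- `j` restricts to an elementary embedding from the structure `A` to the structure `B`. -/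
def IsElemMap (A B : ZFSet.{u}) (j : ZFSet.{u} → ZFSet.{u}) : Prop :=
  ∃ f : ↥A ↪ₑ[LSet] ↥B, ∀ x : ↥A, (f x : ZFSet.{u}) = j x

theorem IsElemMap.mapsTo {A B : ZFSet.{u}} {j : ZFSet.{u} → ZFSet.{u}} (h : IsElemMap A B j)
    {x : ZFSet.{u}} (hx : x ∈ A) : j x ∈ B := by
  obtain ⟨f, hf⟩ := h
  rw [← hf ⟨x, hx⟩]
  exact (f ⟨x, hx⟩).2

/-- Elementary maps between transitive sets preserve definable predicates. -/
theorem Dl.transfer {α : Type} {P : ZFSet.{u} → (α → ZFSet.{u}) → Prop} (h : Dl P)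
    {A B : ZFSet.{u}} {j : ZFSet.{u} → ZFSet.{u}} (hA : A.IsTransitive) (hB : B.IsTransitive)
    (hj : IsElemMap A B j) (s : α → ZFSet.{u}) (hs : ∀ i, s i ∈ A) :
    P A s ↔ P B (fun i => j (s i)) := by
  obtain ⟨φ, hφ⟩ := h
  obtain ⟨f, hf⟩ := hj
  have h1 := hφ A hA (fun i => ⟨s i, hs i⟩)
  have h2 := hφ B hB (f ∘ fun i => ⟨s i, hs i⟩)
  rw [f.map_formula] at h2
  rw [h1] at h2
  refine h2.trans (iff_of_eq ?_)
  congr 1
  funext i
  exact hf _

end Pool.Agent.Helper90.Gss
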