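import Pool.Agent.Helper90.Gss.Hull2

/-!
# The core construction
-/

open FirstOrder FirstOrder.Language

universe u

namespace Pool.Agent.Helper90.Gss

open ZFSet Ordinal

/-- `J : V_ϑ → M` is elementary with critical point `μ`, `J(μ) < ϑ`, `J(J(μ)) ≤ ϑ` and
`V_{J(J(μ))} ⊆ M`. -/
structure TwoSS (ϑ μ : Ordinal.{u}) (M : ZFSet.{u}) (J : ZFSet.{u} → ZFSet.{u}) : Prop where
  emb : Emb ϑ M J
  fix : ∀ α < μ, oMap J α = α
  moved : μ < oMap J μ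
  lt : oMap J μ < ϑ
  le : oMap J (oMap J μ) ≤ ϑ
  sub : V_ (oMap J (oMap J μ)) ⊆ M

namespace TwoSS

variable {ϑ μ : Ordinal.{u}} {M : ZFSet.{u}} {J : ZFSet.{u} → ZFSet.{u}}

theorem μ_lt (h : TwoSS ϑ μ M J) : μ < ϑ := h.moved.trans h.lt

theorem isSuccLimit (h : TwoSS ϑ μ M J) : Order.IsSuccLimit μ := by
  rcases zero_or_succ_or_isSuccLimit μ with h0 | ⟨β, hβ⟩ | h0
  · exfalso
    have h1 := h.moved
    rw [h0, h.emb.oMap_zero (by rw [← h0]; exact h.μ_lt)] at h1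
    exact lt_irrefl _ h1
  · exfalso
    have h1 := h.moved
    rw [← hβ, h.emb.oMap_succ (by rw [hβ]; exact h.μ_lt),
      h.fix β (by rw [← hβ]; exact Order.lt_succ β)] at h1
    exact lt_irrefl _ h1
  · exact h0

theorem omega_lt (h : TwoSS ϑ μ M J) : ω < μ := by
  refine lt_of_le_of_ne (omega0_le_of_isSuccLimit h.isSuccLimit) ?_
  intro he
  have h1 := h.moved
  rw [← he, h.emb.oMap_omega (by rw [he]; exact h.μ_lt)] at h1
  exact lt_irrefl _ h1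

/-- `J` is the identity on `V_μ`. -/
theorem map_eq_self (h : TwoSS ϑ μ M J) : ∀ (r : Ordinal.{u}), r < μ → ∀ x : ZFSet.{u},
    rank x = r → J x = x := by
  intro r
  induction r using WellFoundedLT.induction with
  | _ r ih =>
  intro hr x hx
  have E := h.emb
  have hxϑ : x ∈ V_ ϑ := mem_vonNeumann.2 (by rw [hx]; exact hr.trans h.μ_lt)
  have hlow : ∀ y : ZFSet.{u}, rank y < r → J y = y := fun y hy =>
    ih (rank y) hy (hy.trans hr) y rfl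
  ext z
  constructor
  · intro hz
    have h1 : rank (J x) < oMap J (Order.succ r) :=
      E.rank_map_lt ((h.isSuccLimit.succ_lt hr).trans h.μ_lt) (by rw [hx]; exact Order.lt_succ r)
    rw [h.fix _ (h.isSuccLimit.succ_lt hr), Order.lt_succ_iff] at h1
    have h2 : rank z < r := (rank_lt_of_mem hz).trans_le h1
    have h3 : J z = z := hlow z h2
    rw [← h3, E.mem_iff (mem_vonNeumann.2 ((h2.trans hr).trans h.μ_lt)) hxϑ] at hz
    exact hz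
  · intro hz
    have h2 : rank z < r := by rw [← hx]; exact rank_lt_of_mem hz
    have h3 : J z = z := hlow z h2
    rw [← h3, E.mem_iff (mem_vonNeumann.2 ((h2.trans hr).trans h.μ_lt)) hxϑ]
    exact hz

theorem map_eq_self' (h : TwoSS ϑ μ M J) {x : ZFSet.{u}} (hx : x ∈ V_ μ) : J x = x :=
  h.map_eq_self _ (mem_vonNeumann.1 hx) x rfl

theorem lt' (h : TwoSS ϑ μ M J) : oMap J μ < oMap J (oMap J μ) :=
  (h.emb.oMap_lt_iff h.μ_lt h.lt).2 h.moved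

theorem δ_limit (h : TwoSS ϑ μ M J) : Order.IsSuccLimit (oMap J μ) :=
  (h.emb.isSuccLimit_oMap_iff h.μ_lt).2 h.isSuccLimit

theorem δ'_limit (h : TwoSS ϑ μ M J) : Order.IsSuccLimit (oMap J (oMap J μ)) :=
  (h.emb.isSuccLimit_oMap_iff h.lt).2 h.δ_limit

theorem isIna (h : TwoSS ϑ μ M J) : IsIna μ := by
  refine ⟨h.omega_lt, fun a ha f hf => ?_⟩
  by_contra hcon
  push Not at hcon
  have E := h.emb
  have hval : ∀ x ∈ a, (fun x => (f x).toZFSet) x ∈ μ.toZFSet := fun x hx =>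
    toZFSet_mem_toZFSet_iff.2 (hf x hx)
  set G := graphOn a (fun x => (f x).toZFSet) with hG
  have hGf : IsFunc a μ.toZFSet G := isFunc_graphOn hval
  have haδ : a ∈ V_ (oMap J μ) := vonNeumann_subset_of_le h.moved.le ha
  have hGδ : G ∈ V_ (oMap J μ) :=
    func_mem_vonNeumann h.δ_limit haδ (toZFSet_mem_vonNeumann.2 h.moved) hGf
  have hδϑ : V_ (oMap J μ) ⊆ V_ ϑ := vonNeumann_subset_of_le h.lt.le
  have hμV : μ.toZFSet ∈ V_ ϑ := toZFSet_mem_vonNeumann.2 h.μ_lt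
  have hD : Dl.{u} (α := Fin 3) (fun _ s => ∀ b ∈ s 0, ∃ x ∈ s 1, ∃ c ∈ s 0,
      pair x c ∈ s 2 ∧ b ⊆ c) := by
    refine Dl.ball (P := fun _ b s => ∃ x ∈ s 1, ∃ c ∈ s 0, pair x c ∈ s 2 ∧ b ⊆ c) 0 ?_
    refine Dl.bex (P := fun _ x s => ∃ c ∈ s (some 0), pair x c ∈ s (some 2) ∧ s none ⊆ c)
      (some 1) ?_
    refine Dl.bex (P := fun _ c s => pair (s none) c ∈ s (some (some 2)) ∧ s (some none) ⊆ c)
      (some (some 0)) ?_
    exact (Dl.pairMem _ _ _).and (Dl.subset _ _)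
  have h1 := (E.transfer hD ![μ.toZFSet, a, G] (by
      simp only [Fin.forall_fin_succ]
      simpa using ⟨hμV, hδϑ haδ, hδϑ hGδ⟩)).1 (by
    show ∀ b ∈ μ.toZFSet, ∃ x ∈ a, ∃ c ∈ μ.toZFSet, pair x c ∈ G ∧ b ⊆ c
    intro b hb
    obtain ⟨β, hβ, rfl⟩ := mem_toZFSet_iff.1 hb
    obtain ⟨x, hx, hxβ⟩ := hcon β hβ
    refine ⟨x, hx, (f x).toZFSet, hval x hx, ?_, toZFSet_subset_toZFSet_iff.2 hxβ⟩
    rw [pair_mem_iff hGf, hG, app_graphOn hval hx]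
    exact ⟨hx, rfl⟩)
  have h2 : ∀ b ∈ J μ.toZFSet, ∃ x ∈ J a, ∃ c ∈ J μ.toZFSet, pair x c ∈ J G ∧ b ⊆ c := h1
  rw [E.map_toZFSet h.μ_lt, h.map_eq_self' ha] at h2
  obtain ⟨x, hx, c, hc, hxc, hμc⟩ := h2 _ (toZFSet_mem_toZFSet_iff.2 h.moved)
  -- `J G` is a function on `a`
  have h3 : IsFunc (J a) (J μ.toZFSet) (J G) :=
    (E.transfer (Dl.isFunc (0 : Fin 3) 1 2) ![a, μ.toZFSet, G] (by
      simp only [Fin.forall_fin_succ]
      simpa using ⟨hδϑ haδ, hμV, hδϑ hGδ⟩)).1 hGf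
  rw [h.map_eq_self' ha] at h3
  have h4 : pair x (f x).toZFSet ∈ G := by
    rw [pair_mem_iff hGf, hG, app_graphOn hval hx]
    exact ⟨hx, rfl⟩
  have hpϑ : pair x (f x).toZFSet ∈ V_ ϑ := (isTransitive_vonNeumann ϑ).mem_trans h4 (hδϑ hGδ)
  have h5 : J (pair x (f x).toZFSet) ∈ J G := (E.mem_iff hpϑ (hδϑ hGδ)).2 h4
  rw [E.map_pair hpϑ, h.map_eq_self' ((isTransitive_vonNeumann μ).mem_trans hx ha),
    h.map_eq_self' (toZFSet_mem_vonNeumann.2 (hf x hx))] at h5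
  have h6 : c = (f x).toZFSet := (app_eq h3 hx hxc).symm.trans (app_eq h3 hx h5)
  rw [h6, toZFSet_subset_toZFSet_iff] at hμc
  exact absurd (hf x hx) (not_lt.2 hμc)

theorem ordTransfer (h : TwoSS ϑ μ M J) {α : Type} {P : (α → Ordinal.{u}) → Prop} (hP : ODl P)
    (s : α → Ordinal.{u}) (hs : ∀ i, s i ≤ oMap J μ) : P s ↔ P (fun i => oMap J (s i)) :=
  h.emb.ordTransfer h.δ_limit
    ((h.δ'_limit.succ_lt (h.δ'_limit.succ_lt h.lt')).trans_le h.le) h.sub hP s hs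

/-- The main construction. -/
theorem core (h : TwoSS ϑ μ M J) :
    ∃ Ω : Ordinal.{u}, IsIna Ω ∧ ∃ κ < Ω, Pz Ω κ ∧ (∀ α < κ, ¬ Pz Ω α) ∧ ¬ Reg κ := by
  have E := h.emb
  set δ := oMap J μ with hδ
  set δ' := oMap J δ with hδ'
  have hμδ : μ < δ := h.moved
  have hδδ' : δ < δ' := h.lt'
  have hδϑ : δ < ϑ := h.lt
  have hδ'ϑ : δ' ≤ ϑ := h.le
  have hμina := h.isIna
  have hμl := h.isSuccLimit
  -- (a) `μ` is correct with respect to `δ`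
  have hcorr : Corr μ δ := by
    intro κ hκ θ hθ l hl hQ
    have h1 := (h.ordTransfer (ODl.qr (0 : Fin 4) 1 2 3) ![μ, κ, θ, l] (by
      simp only [Fin.forall_fin_succ]
      simpa using ⟨hμδ.le, (hκ.trans hμδ).le, (hθ.trans hμδ).le, (hl.trans hμδ).le⟩)).2 (by
        show Qr (oMap J μ) (oMap J κ) (oMap J θ) (oMap J l)
        rw [h.fix κ hκ, h.fix θ hθ, h.fix l hl]
        exact hQ)
    exact h1
  -- (b) good first components
  have hG1 : ∀ β < μ, ∃ O0 < μ, β < O0 ∧ (O0 < μ ∧ IsIna O0) ∧ Corr O0 μ := by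
    intro β hβ
    have hD : ODl.{u} (α := Fin 2) (fun s => ∃ O0 < s 0, s 1 < O0 ∧
        (O0 < s 0 ∧ IsIna O0) ∧ Corr O0 (s 0)) :=
      ODl.bex (P := fun O0 s => s 1 < O0 ∧ (O0 < s 0 ∧ IsIna O0) ∧ Corr O0 (s 0)) 0
        ((ODl.lt _ _).and ((ODl.ina _ _).and (ODl.corr _ _)))
    refine (h.ordTransfer hD ![μ, β] (by
      simp only [Fin.forall_fin_two]
      exact ⟨hμδ.le, (hβ.trans hμδ).le⟩)).2 ?_
    show ∃ O0 < oMap J μ, oMap J β < O0 ∧ (O0 < oMap J μ ∧ IsIna O0) ∧ Corr O0 (oMap J μ)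
    rw [h.fix β hβ]
    exact ⟨μ, hμδ, hβ, ⟨hμδ, hμina⟩, hcorr⟩
  -- (c) good pairs below `μ`
  have hG2 : ∀ β < μ, G2 β μ := by
    intro β hβ
    refine (h.ordTransfer (ODl.g2 (0 : Fin 2) 1) ![β, μ] (by
      simp only [Fin.forall_fin_two]
      exact ⟨(hβ.trans hμδ).le, hμδ.le⟩)).2 ?_
    show G2 (oMap J β) (oMap J μ)
    rw [h.fix β hβ]
    obtain ⟨O0, h1, h2, h3, h4⟩ := hG1 β hβ
    exact ⟨μ, hμδ, O0, h1, h2, h3, ⟨hμδ, hμina⟩, h4⟩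
  have hD3 : ODl.{u} (α := Fin 1) (fun s => ∀ β < s 0, G2 β (s 0)) :=
    ODl.ball (P := fun β s => G2 β (s 0)) 0 (ODl.g2 _ _)
  have hG3 : ∀ β < δ, G2 β δ := (h.ordTransfer hD3 ![μ] (by simpa using hμδ.le)).1 hG2
  -- (d) a good pair with minimal first component above `μ`
  obtain ⟨O1', hO1', O0', _, hμO0', hO0', hO1'', hcorr'⟩ := hG3 μ hμδ
  obtain ⟨O0, ⟨hμO0, O1, hO1, hO01, hO0ina, hO1ina, hO⟩, hOmin⟩ :=
    WellFounded.has_min Ordinal.lt_wf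
    {O0 : Ordinal.{u} | μ < O0 ∧ ∃ O1 < δ, O0 < O1 ∧ IsIna O0 ∧ IsIna O1 ∧ Corr O0 O1}
    ⟨O0', hμO0', O1', hO1', hO0'.1, hO0'.2, hO1''.2, hcorr'⟩
  have hO0δ : O0 < δ := hO01.trans hO1
  -- (e) no targets between `μ` and `O0`
  have hno : NoTar δ μ O0 := by
    intro τ hτδ hμτ hOτ α hα θ hθ hER
    obtain ⟨hθl, hαθ, _, N, hN, j, Ej, hj, hVN, hjβ⟩ := hER
    have hθθ : θ < Order.succ θ := Order.lt_succ θ
    have hαl : Order.IsSuccLimit α := by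
      rcases zero_or_succ_or_isSuccLimit α with h0 | ⟨β, hβ⟩ | h0
      · exfalso
        rw [h0, Ej.oMap_zero (by rw [← h0]; exact hαθ.trans hθθ)] at hj
        rw [← hj] at hμτ
        exact not_lt_zero hμτ
      · exfalso
        have h1 : oMap j β < μ := hjβ β (by rw [← hβ]; exact Order.lt_succ β)
        rw [← hβ, Ej.oMap_succ (by rw [hβ]; exact hαθ.trans hθθ)] at hj
        rw [← hj] at hμτ
        exact absurd (Order.succ_le_of_lt h1) (not_le.2 hμτ)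
      · exact h0
    have hroom : Order.succ (Order.succ α) < Order.succ θ :=
      (hθl.succ_lt (hθl.succ_lt hαθ)).trans hθθ
    have hVN' : V_ (oMap j α) ⊆ N := by rw [hj]; exact hVN
    have h1 : ∀ β < α, G2 β α := by
      intro β hβ
      refine (Ej.ordTransfer hαl hroom hVN' (ODl.g2 (0 : Fin 2) 1) ![β, α] (by
        simp only [Fin.forall_fin_two]
        exact ⟨hβ.le, le_rfl⟩)).2 ?_
      show G2 (oMap j β) (oMap j α)
      rw [hj]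
      exact (hG2 _ (hjβ β hβ)).mono hμτ.le
    have h2 : ∀ β < oMap j α, G2 β (oMap j α) :=
      (Ej.ordTransfer hαl hroom hVN' hD3 ![α] (by simp)).1 h1
    rw [hj] at h2
    obtain ⟨P1, hP1, P0, _, hμP0, hP0, hP1', hP⟩ := h2 μ hμτ
    have hP0τ : P0 < O0 := (hP0.1.trans hP1).trans_le (not_lt.1 hOτ)
    exact hOmin P0 ⟨hμP0, P1, hP1.trans hτδ, hP0.1, hP0.2, hP1'.2, hP⟩ hP0τ
  -- (f) transfer to `δ'`
  have hno' : NoTar δ' δ (oMap J O0) := (h.ordTransfer (ODl.noTar (0 : Fin 3) 1 2) ![δ, μ, O0] (by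
      simp only [Fin.forall_fin_succ]
      simpa using ⟨le_refl δ, hμδ.le, hO0δ.le⟩)).1 hno
  set Ω := oMap J O0 with hΩ
  set Ω' := oMap J O1 with hΩ'
  have hO0ϑ : O0 < ϑ := hO0δ.trans hδϑ
  have hO1ϑ : O1 < ϑ := hO1.trans hδϑ
  have hδΩ : δ < Ω := (E.oMap_lt_iff h.μ_lt hO0ϑ).2 hμO0
  have hΩδ' : Ω < δ' := (E.oMap_lt_iff hO0ϑ hδϑ).2 hO0δ
  have hΩΩ' : Ω < Ω' := (E.oMap_lt_iff hO0ϑ hO1ϑ).2 hO01
  have hΩ'δ' : Ω' < δ' := (E.oMap_lt_iff hO1ϑ hδϑ).2 hO1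
  have hΩina : IsIna Ω := ((h.ordTransfer (ODl.ina (0 : Fin 2) 1) ![O1, O0] (by
      simp only [Fin.forall_fin_two]
      exact ⟨hO1.le, hO0δ.le⟩)).1 ⟨hO01, hO0ina⟩).2
  have hΩ'ina : IsIna Ω' := ((h.ordTransfer (ODl.ina (0 : Fin 2) 1) ![δ, O1] (by
      simp only [Fin.forall_fin_two]
      exact ⟨le_rfl, hO1.le⟩)).1 ⟨hO1, hO1ina⟩).2
  have hΩcorr : Corr Ω Ω' := (h.ordTransfer (ODl.corr (0 : Fin 2) 1) ![O0, O1] (by
      simp only [Fin.forall_fin_two]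
      exact ⟨hO0δ.le, hO1.le⟩)).1 hO
  have hO0Ω : O0 < Ω := hO0δ.trans hδΩ
  -- (g) `O0` is large in `V_Ω`
  have hPz : Pz Ω O0 := by
    intro θ hθ hθl hO0θ l hl
    refine hΩcorr O0 hO0Ω θ hθ l hl ⟨Ω, hΩΩ', hl, ?_⟩
    have hθϑ : Order.succ θ < ϑ :=
      (h.δ'_limit.succ_lt (hθ.trans hΩδ')).trans_le hδ'ϑ
    have hVΩ : V_ (oMap J O0) ⊆ M := fun z hz =>
      h.sub (vonNeumann_subset_of_le hΩδ'.le hz)
    exact hull E hθl hθϑ hO0θ hθ hVΩ hΩ'ina hΩΩ'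
  -- (h) the least large ordinal of `V_Ω`
  obtain ⟨κ, ⟨hκO, hPκ⟩, hκmin⟩ := WellFounded.has_min Ordinal.lt_wf
    {κ : Ordinal.{u} | κ ≤ O0 ∧ Pz Ω κ} ⟨O0, le_rfl, hPz⟩
  have hκmin' : ∀ α < κ, ¬ Pz Ω α := fun α hα hP => hκmin α ⟨hα.le.trans hκO, hP⟩ hα
  have hκδ : κ < δ := hκO.trans_lt hO0δ
  refine ⟨Ω, hΩina, κ, hκδ.trans hδΩ, hPκ, hκmin', fun hreg => ?_⟩
  obtain ⟨τ, hδτ, hτΩ, θ, hER⟩ :=
    targets_of_regular hΩina (hκδ.trans hδΩ) hPκ hκmin' hreg δ hδΩ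
  exact hno' τ (hτΩ.trans hΩδ') hδτ (not_lt.2 hτΩ.le) κ hκδ θ (hER.2.2.1.trans hΩδ')
    (hER.mono hΩδ'.le hκδ.le)

end TwoSS

end Pool.Agent.Helper90.Gss
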