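import Pool.Agent.Helper90.Gss.Relativize

/-!
# Elementary maps as sets, and the set `S_ζ` of all of them below a limit level
-/

open FirstOrder FirstOrder.Language

universe u

namespace Pool.Agent.Helper90.Gss

open ZFSet Ordinal

instance countable_symbols : Countable LSet.Symbols := by
  have h1 : IsEmpty (Σ l, LSet.Functions l) := ⟨fun x => Empty.elim x.2⟩
  have h2 : Subsingleton (Σ l, LSet.Relations l) := by
    refine ⟨fun a b => ?_⟩
    obtain ⟨l, r⟩ := a
    obtain ⟨l', r'⟩ := b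
    cases r
    cases r'
    rfl
  have h3 : Countable (Σ l, LSet.Functions l) := inferInstance
  have h4 : Countable (Σ l, LSet.Relations l) := inferInstance
  exact inferInstanceAs (Countable ((Σ l, LSet.Functions l) ⊕ (Σ l, LSet.Relations l)))

/-- The value of the set-function `G` at `x`. -/
noncomputable def app (G x : ZFSet.{u}) : ZFSet.{u} :=
  ⋃₀ (ZFSet.sep (fun y => pair x y ∈ G) (⋃₀ (⋃₀ G)))

theorem snd_mem_sUnion {G x y : ZFSet.{u}} (h : pair x y ∈ G) : y ∈ (⋃₀ (⋃₀ G) : ZFSet.{u}) := by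
  refine mem_sUnion.2 ⟨{x, y}, mem_sUnion.2 ⟨_, h, ?_⟩, ?_⟩
  · simp [pair]
  · simp

theorem app_eq {A B G x y : ZFSet.{u}} (hG : IsFunc A B G) (hx : x ∈ A) (h : pair x y ∈ G) :
    app G x = y := by
  obtain ⟨w, hw, hu⟩ := hG.2 x hx
  have hyw : y = w := hu y h
  subst hyw
  have : ZFSet.sep (fun y => pair x y ∈ G) (⋃₀ (⋃₀ G)) = {y} := by
    ext z
    rw [mem_sep, mem_singleton]
    constructor
    · rintro ⟨_, hz⟩
      exact hu z hz
    · rintro rfl
      exact ⟨snd_mem_sUnion hw, hw⟩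
  rw [app, this, sUnion_singleton]

theorem pair_app {A B G x : ZFSet.{u}} (hG : IsFunc A B G) (hx : x ∈ A) : pair x (app G x) ∈ G := by
  obtain ⟨w, hw, _⟩ := hG.2 x hx
  have : app G x = w := app_eq hG hx hw
  rw [this]
  exact hw

theorem app_mem {A B G x : ZFSet.{u}} (hG : IsFunc A B G) (hx : x ∈ A) : app G x ∈ B :=
  (pair_mem_prod.1 (hG.1 (pair_app hG hx))).2

theorem pair_mem_iff {A B G x y : ZFSet.{u}} (hG : IsFunc A B G) :
    pair x y ∈ G ↔ x ∈ A ∧ app G x = y := by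
  constructor
  · intro h
    have hx : x ∈ A := (pair_mem_prod.1 (hG.1 h)).1
    exact ⟨hx, app_eq hG hx h⟩
  · rintro ⟨hx, rfl⟩
    exact pair_app hG hx

/-- The graph on `A` of a map. -/
noncomputable def graphOn (A : ZFSet.{u}) (j : ZFSet.{u} → ZFSet.{u}) : ZFSet.{u} :=
  range (fun x : ↥A => pair (x : ZFSet.{u}) (j x))

theorem isFunc_graphOn {A B : ZFSet.{u}} {j : ZFSet.{u} → ZFSet.{u}} (h : ∀ x ∈ A, j x ∈ B) :
    IsFunc A B (graphOn A j) := by
  constructor
  · intro z hz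
    obtain ⟨x, rfl⟩ := mem_range.1 hz
    exact pair_mem_prod.2 ⟨x.2, h x x.2⟩
  · intro x hx
    refine ⟨j x, mem_range.2 ⟨⟨x, hx⟩, rfl⟩, fun y hy => ?_⟩
    obtain ⟨x', hx'⟩ := mem_range.1 hy
    obtain ⟨h1, h2⟩ := pair_injective hx'
    rw [← h2, h1]

theorem app_graphOn {A B : ZFSet.{u}} {j : ZFSet.{u} → ZFSet.{u}} (h : ∀ x ∈ A, j x ∈ B)
    {x : ZFSet.{u}} (hx : x ∈ A) : app (graphOn A j) x = j x :=
  app_eq (isFunc_graphOn h) hx (mem_range.2 ⟨⟨x, hx⟩, rfl⟩)

/-- `G` is the graph of an elementary map from `A` to `B`. -/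
def IsElemG (A B G : ZFSet.{u}) : Prop := IsFunc A B G ∧ IsElemMap A B (app G)

/-- `G` is the graph of a map from `A` to `B` preserving the formula `φ`. -/
def IsElemGφ (n : ℕ) (φ : LSet.Formula (Fin n)) (A B G : ZFSet.{u}) : Prop :=
  IsFunc A B G ∧ ∀ x : Fin n → ZFSet.{u}, (∀ i, x i ∈ A) → ∀ y : Fin n → ZFSet.{u},
    (∀ i, y i ∈ B) → (∀ i, pair (x i) (y i) ∈ G) → (SatB A φ x default ↔ SatB B φ y default)

theorem isElemG_iff {A B G : ZFSet.{u}} :
    IsElemG A B G ↔ ∀ (n : ℕ) (φ : LSet.Formula (Fin n)), IsElemGφ n φ A B G := by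
  constructor
  · rintro ⟨h1, h2⟩ n φ
    refine ⟨h1, fun x hx y hy hxy => ?_⟩
    rw [isElemMap_iff] at h2
    have h3 := h2.2 n φ x hx
    rw [h3]
    have : (fun i => app G (x i)) = y := by
      funext i
      exact app_eq h1 (hx i) (hxy i)
    rw [this]
  · intro h
    have hG : IsFunc A B G := (h 0 ⊤).1
    refine ⟨hG, isElemMap_iff.2 ⟨fun x hx => app_mem hG hx, fun n φ s hs => ?_⟩⟩
    exact (h n φ).2 s hs _ (fun i => app_mem hG (hs i)) (fun i => pair_app hG (hs i))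

namespace Dl

/-- Conjunction over a finite type. -/
theorem allFin {α : Type} {n : ℕ} {P : Fin n → ZFSet.{u} → (α → ZFSet.{u}) → Prop}
    (h : ∀ i, Dl (P i)) : Dl (fun U s => ∀ i, P i U s) := by
  induction n with
  | zero => exact Dl.true.congr fun _ _ _ _ => by simp
  | succ n ih =>
    refine ((h 0).and (ih (P := fun i => P i.succ) fun i => h i.succ)).congr fun _ _ _ _ => ?_
    rw [Fin.forall_fin_succ]

theorem elemGφ {α : Type} (n : ℕ) (φ : LSet.Formula (Fin n)) (a b g : α) :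
    Dl.{u} (fun _ s => IsElemGφ n φ (s a) (s b) (s g)) := by
  refine (isFunc a b g).and ?_
  have h1 : Dl.{u} (α := (α ⊕ Fin n) ⊕ Fin n) (fun _ s => (∀ i, s (Sum.inl (Sum.inr i)) ∈
      s (Sum.inl (Sum.inl a))) → (∀ i, s (Sum.inr i) ∈ s (Sum.inl (Sum.inl b))) →
      (∀ i, pair (s (Sum.inl (Sum.inr i))) (s (Sum.inr i)) ∈ s (Sum.inl (Sum.inl g))) →
      (SatB (s (Sum.inl (Sum.inl a))) φ (fun i => s (Sum.inl (Sum.inr i))) default ↔
        SatB (s (Sum.inl (Sum.inl b))) φ (fun i => s (Sum.inr i)) default)) := by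
    refine (allFin fun i => mem _ _).imp ((allFin fun i => mem _ _).imp
      ((allFin fun i => pairMem _ _ _).imp ((sat φ _ _).iff (sat φ _ _))))
  refine (alls (alls h1)).congr fun U hU s hs => ?_
  constructor
  · intro H x hx y hy hxy
    exact H x (fun i => hU.mem_trans (hx i) (hs a)) y (fun i => hU.mem_trans (hy i) (hs b))
      hx hy hxy
  · intro H x _ y _ hx hy hxy
    exact H x hx y hy hxy

end Dl

/-- Codes of triples. -/
noncomputable def code (A B G : ZFSet.{u}) : ZFSet.{u} := pair G (pair A B)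

theorem code_inj {A B G A' B' G' : ZFSet.{u}} : code A B G = code A' B' G' ↔
    A = A' ∧ B = B' ∧ G = G' := by
  unfold code
  rw [pair_inj, pair_inj]
  tauto

/-- The set of codes in `V_ζ` of maps preserving `φ`. -/
noncomputable def Sφ (n : ℕ) (φ : LSet.Formula (Fin n)) (ζ : Ordinal.{u}) : ZFSet.{u} :=
  (V_ ζ).sep (fun p => ∃ A B G, p = code A B G ∧ IsElemGφ n φ A B G)

/-- The set of codes in `V_ζ` of elementary maps. -/
noncomputable def S (ζ : Ordinal.{u}) : ZFSet.{u} :=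
  (V_ ζ).sep (fun p => ∃ A B G, p = code A B G ∧ IsElemG A B G)

theorem code_mem_S {ζ : Ordinal.{u}} {A B G : ZFSet.{u}} :
    code A B G ∈ S ζ ↔ code A B G ∈ V_ ζ ∧ IsElemG A B G := by
  rw [S, mem_sep]
  refine and_congr_right fun _ => ⟨?_, fun h => ⟨A, B, G, rfl, h⟩⟩
  rintro ⟨A', B', G', h1, h2⟩
  obtain ⟨rfl, rfl, rfl⟩ := code_inj.1 h1
  exact h2

theorem mem_S_iff {ζ : Ordinal.{u}} {p : ZFSet.{u}} :
    p ∈ S ζ ↔ p ∈ V_ ζ ∧ ∀ (n : ℕ) (φ : LSet.Formula (Fin n)), p ∈ Sφ n φ ζ := by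
  constructor
  · intro h
    rw [S, mem_sep] at h
    obtain ⟨h1, A, B, G, rfl, h2⟩ := h
    refine ⟨h1, fun n φ => ?_⟩
    rw [Sφ, mem_sep]
    exact ⟨h1, A, B, G, rfl, isElemG_iff.1 h2 n φ⟩
  · rintro ⟨h1, h2⟩
    obtain ⟨A, B, G, rfl, _⟩ := (mem_sep.1 (h2 0 ⊤)).2
    rw [code_mem_S]
    refine ⟨h1, isElemG_iff.2 fun n φ => ?_⟩
    obtain ⟨A', B', G', h3, h4⟩ := (mem_sep.1 (h2 n φ)).2
    obtain ⟨rfl, rfl, rfl⟩ := code_inj.1 h3
    exact h4

theorem S_subset {ζ : Ordinal.{u}} : S ζ ⊆ V_ ζ := fun _ h => (mem_sep.1 h).1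
theorem Sφ_subset {n : ℕ} {φ : LSet.Formula (Fin n)} {ζ : Ordinal.{u}} : Sφ n φ ζ ⊆ V_ ζ :=
  fun _ h => (mem_sep.1 h).1

theorem fst_mem {U x y : ZFSet.{u}} (hU : U.IsTransitive) (h : pair x y ∈ U) : x ∈ U := by
  refine hU.mem_trans (?_ : x ∈ ({x} : ZFSet)) (hU.mem_trans (?_ : ({x} : ZFSet) ∈ pair x y) h)
  · simp
  · simp [pair]

theorem snd_mem {U x y : ZFSet.{u}} (hU : U.IsTransitive) (h : pair x y ∈ U) : y ∈ U := by
  refine hU.mem_trans (?_ : y ∈ ({x, y} : ZFSet))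
    (hU.mem_trans (?_ : ({x, y} : ZFSet) ∈ pair x y) h)
  · simp
  · simp [pair]

namespace Dl

theorem isCode {α : Type} (p a b g : α) : Dl.{u} (fun _ s => s p = code (s a) (s b) (s g)) := by
  refine (ex (P := fun _ q s => q = pair (s a) (s b) ∧ s p = pair (s g) q)
    ((isPair none (some a) (some b)).and (isPair (some p) (some g) none))).congr
    fun U hU s hs => ?_
  constructor
  · rintro ⟨q, _, rfl, h⟩
    exact h
  · intro h
    refine ⟨_, ?_, rfl, h⟩
    have : pair (s g) (pair (s a) (s b)) ∈ U := by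
      have := hs p
      rw [h] at this
      exact this
    exact snd_mem hU this

theorem codeMem {α : Type} (a b g t : α) : Dl.{u} (fun _ s => code (s a) (s b) (s g) ∈ s t) := by
  refine (bex (P := fun _ p s => p = code (s a) (s b) (s g)) t
    (isCode none (some a) (some b) (some g))).congr fun U hU s hs => ?_
  constructor
  · rintro ⟨q, hq, rfl⟩
    exact hq
  · intro h
    exact ⟨_, h, rfl⟩

/-- `X` is the set of codes in `v` of maps preserving `φ`. -/
theorem isSφ {α : Type} (n : ℕ) (φ : LSet.Formula (Fin n)) (v X : α) :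
    Dl.{u} (fun _ s => ∀ p ∈ s v, p ∈ s X ↔ ∃ A B G, p = code A B G ∧ IsElemGφ n φ A B G) := by
  refine (ball (P := fun U p s => p ∈ s X ↔ ∃ A ∈ U, ∃ B ∈ U, ∃ G ∈ U,
    p = code A B G ∧ IsElemGφ n φ A B G) v
    ((mem none (some X)).iff
      (ex (P := fun U A s => ∃ B ∈ U, ∃ G ∈ U, s none = code A B G ∧ IsElemGφ n φ A B G)
        (ex (P := fun U B s => ∃ G ∈ U, s (some none) = code (s none) B G ∧
          IsElemGφ n φ (s none) B G)
          (ex (P := fun U G s => s (some (some none)) = code (s (some none)) (s none) G ∧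
            IsElemGφ n φ (s (some none)) (s none) G)
            ((isCode _ _ _ _).and (elemGφ n φ _ _ _))))))).congr fun U hU s hs => ?_
  refine forall₂_congr fun p hp => iff_congr Iff.rfl ?_
  constructor
  · rintro ⟨A, _, B, _, G, _, h⟩
    exact ⟨A, B, G, h⟩
  · rintro ⟨A, B, G, h1, h2⟩
    have hpU : pair G (pair A B) ∈ U := by
      have := hU.mem_trans hp (hs v)
      rw [h1] at this
      exact this
    exact ⟨A, fst_mem hU (snd_mem hU hpU), B, snd_mem hU (snd_mem hU hpU), G, fst_mem hU hpU,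
      h1, h2⟩

end Dl

end Pool.Agent.Helper90.Gss
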