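import Pool.Agent.Helper90.Gss.Levels

/-!
# Elementary maps `J : V_ϑ → M` into transitive sets: basic facts
-/

open FirstOrder FirstOrder.Language

universe u

namespace Pool.Agent.Helper90.Gss

open ZFSet Ordinal

/-- `J` restricts to an elementary embedding from `V_ϑ` to the transitive set `M`. -/
structure Emb (ϑ : Ordinal.{u}) (M : ZFSet.{u}) (J : ZFSet.{u} → ZFSet.{u}) : Prop where
  trans : M.IsTransitive
  elem : IsElemMap (V_ ϑ) M J

/-- The action of `J` on ordinals. -/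
noncomputable def oMap (J : ZFSet.{u} → ZFSet.{u}) (α : Ordinal.{u}) : Ordinal.{u} :=
  rank (J α.toZFSet)

theorem toZFSet_mem_vonNeumann {α ϑ : Ordinal.{u}} : α.toZFSet ∈ V_ ϑ ↔ α < ϑ := by
  rw [mem_vonNeumann, rank_toZFSet]

theorem vonNeumann_mem_vonNeumann {α ϑ : Ordinal.{u}} : V_ α ∈ V_ ϑ ↔ α < ϑ :=
  vonNeumann_mem_vonNeumann_iff

/-- The set-theoretic limit condition. -/
def IsLimS (x : ZFSet.{u}) : Prop := x ≠ ∅ ∧ ∀ y ∈ x, ∃ z ∈ x, y ∈ z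

theorem Dl.isLimS {α : Type} (i : α) : Dl.{u} (fun _ s => IsLimS (s i)) :=
  (isEmpty i).not.and (ball (P := fun _ y s => ∃ z ∈ s i, y ∈ z) i
    (bex (P := fun _ z s => s none ∈ z) (some i) (mem (some none) none)))

theorem isLimS_toZFSet {α : Ordinal.{u}} : IsLimS α.toZFSet ↔ Order.IsSuccLimit α := by
  constructor
  · rintro ⟨h1, h2⟩
    refine ⟨?_, ?_⟩
    · intro hmin
      rw [isMin_iff_eq_bot] at hmin
      apply h1
      rw [hmin]
      exact toZFSet_zero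
    · intro a ha
      have ha' : a < α := ha.1
      obtain ⟨z, hz, haz⟩ := h2 a.toZFSet (toZFSet_mem_toZFSet_iff.2 ha')
      obtain ⟨b, hb, rfl⟩ := mem_toZFSet_iff.1 hz
      exact ha.2 (toZFSet_mem_toZFSet_iff.1 haz) hb
  · intro h
    refine ⟨?_, ?_⟩
    · intro h0
      have : α ≠ 0 := by
        rintro rfl
        exact h.1 isMin_bot
      apply this
      apply toZFSet_injective
      rw [h0, toZFSet_zero]
    · intro y hy
      obtain ⟨b, hb, rfl⟩ := mem_toZFSet_iff.1 hy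
      exact ⟨(Order.succ b).toZFSet, toZFSet_mem_toZFSet_iff.2 (h.succ_lt hb),
        toZFSet_mem_toZFSet_iff.2 (Order.lt_succ b)⟩

namespace Emb

variable {ϑ : Ordinal.{u}} {M : ZFSet.{u}} {J : ZFSet.{u} → ZFSet.{u}}

theorem transfer (E : Emb ϑ M J) {α : Type} {P : ZFSet.{u} → (α → ZFSet.{u}) → Prop}
    (h : Dl P) (s : α → ZFSet.{u}) (hs : ∀ i, s i ∈ V_ ϑ) :
    P (V_ ϑ) s ↔ P M (fun i => J (s i)) :=
  h.transfer (isTransitive_vonNeumann ϑ) E.trans E.elem s hs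

theorem mapsTo (E : Emb ϑ M J) {x : ZFSet.{u}} (hx : x ∈ V_ ϑ) : J x ∈ M := E.elem.mapsTo hx

theorem mem_iff (E : Emb ϑ M J) {x y : ZFSet.{u}} (hx : x ∈ V_ ϑ) (hy : y ∈ V_ ϑ) :
    J x ∈ J y ↔ x ∈ y :=
  (E.transfer (Dl.mem (0 : Fin 2) 1) ![x, y] (by simp [Fin.forall_fin_two, hx, hy])).symm

theorem eq_iff (E : Emb ϑ M J) {x y : ZFSet.{u}} (hx : x ∈ V_ ϑ) (hy : y ∈ V_ ϑ) :
    J x = J y ↔ x = y :=
  (E.transfer (Dl.eq (0 : Fin 2) 1) ![x, y] (by simp [Fin.forall_fin_two, hx, hy])).symm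

theorem subset_iff (E : Emb ϑ M J) {x y : ZFSet.{u}} (hx : x ∈ V_ ϑ) (hy : y ∈ V_ ϑ) :
    J x ⊆ J y ↔ x ⊆ y :=
  (E.transfer (Dl.subset (0 : Fin 2) 1) ![x, y] (by simp [Fin.forall_fin_two, hx, hy])).symm

theorem isOrdinal_iff (E : Emb ϑ M J) {x : ZFSet.{u}} (hx : x ∈ V_ ϑ) :
    (J x).IsOrdinal ↔ x.IsOrdinal :=
  (E.transfer (Dl.isOrdinal (0 : Fin 1)) ![x] (by simp [hx])).symm

theorem isTransitive_iff (E : Emb ϑ M J) {x : ZFSet.{u}} (hx : x ∈ V_ ϑ) :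
    (J x).IsTransitive ↔ x.IsTransitive :=
  (E.transfer (Dl.isTransitive (0 : Fin 1)) ![x] (by simp [hx])).symm

theorem map_toZFSet (E : Emb ϑ M J) {α : Ordinal.{u}} (hα : α < ϑ) :
    J α.toZFSet = (oMap J α).toZFSet := by
  have h : (J α.toZFSet).IsOrdinal :=
    (E.isOrdinal_iff (toZFSet_mem_vonNeumann.2 hα)).2 (isOrdinal_toZFSet α)
  exact h.toZFSet_rank_eq.symm

theorem oMap_mem (E : Emb ϑ M J) {α : Ordinal.{u}} (hα : α < ϑ) : (oMap J α).toZFSet ∈ M := by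
  rw [← E.map_toZFSet hα]
  exact E.mapsTo (toZFSet_mem_vonNeumann.2 hα)

theorem oMap_lt_iff (E : Emb ϑ M J) {α β : Ordinal.{u}} (hα : α < ϑ) (hβ : β < ϑ) :
    oMap J α < oMap J β ↔ α < β := by
  rw [← toZFSet_mem_toZFSet_iff, ← E.map_toZFSet hα, ← E.map_toZFSet hβ,
    E.mem_iff (toZFSet_mem_vonNeumann.2 hα) (toZFSet_mem_vonNeumann.2 hβ),
    toZFSet_mem_toZFSet_iff]

theorem oMap_le_iff (E : Emb ϑ M J) {α β : Ordinal.{u}} (hα : α < ϑ) (hβ : β < ϑ) :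
    oMap J α ≤ oMap J β ↔ α ≤ β := by
  rw [← not_lt, ← not_lt, E.oMap_lt_iff hβ hα]

theorem oMap_inj (E : Emb ϑ M J) {α β : Ordinal.{u}} (hα : α < ϑ) (hβ : β < ϑ) :
    oMap J α = oMap J β ↔ α = β := by
  rw [le_antisymm_iff, le_antisymm_iff, E.oMap_le_iff hα hβ, E.oMap_le_iff hβ hα]

theorem le_oMap (E : Emb ϑ M J) {α : Ordinal.{u}} (hα : α < ϑ) : α ≤ oMap J α := by
  induction α using WellFoundedLT.induction with
  | _ α ih =>
  by_contra h
  rw [not_le] at h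
  have h1 := ih _ h (h.trans hα)
  have h2 := (E.oMap_lt_iff (h.trans hα) hα).2 h
  exact absurd h1 (not_le.2 h2)

theorem map_empty (E : Emb ϑ M J) (h0 : 0 < ϑ) : J ∅ = ∅ :=
  (E.transfer (Dl.isEmpty (0 : Fin 1)) ![∅] (by simpa [mem_vonNeumann] using h0)).1 rfl

theorem oMap_zero (E : Emb ϑ M J) (h0 : 0 < ϑ) : oMap J 0 = 0 := by
  rw [oMap, toZFSet_zero, E.map_empty h0, rank_empty]

theorem oMap_succ (E : Emb ϑ M J) {α : Ordinal.{u}} (hα : Order.succ α < ϑ) :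
    oMap J (Order.succ α) = Order.succ (oMap J α) := by
  have hα' : α < ϑ := (Order.lt_succ α).trans hα
  have h := (E.transfer (Dl.isSucc (0 : Fin 2) 1) ![(Order.succ α).toZFSet, α.toZFSet]
    (by simp only [Fin.forall_fin_two]; exact ⟨toZFSet_mem_vonNeumann.2 hα,
      toZFSet_mem_vonNeumann.2 hα'⟩)).1 (by
        show (Order.succ α).toZFSet = insert α.toZFSet α.toZFSet
        rw [← toZFSet_add_one]; rfl)
  have h' : J (Order.succ α).toZFSet = insert (J α.toZFSet) (J α.toZFSet) := h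
  rw [oMap, h', rank_insert, ← oMap]
  exact max_eq_left (Order.le_succ _)

theorem isSuccLimit_oMap_iff (E : Emb ϑ M J) {α : Ordinal.{u}} (hα : α < ϑ) :
    Order.IsSuccLimit (oMap J α) ↔ Order.IsSuccLimit α := by
  rw [← isLimS_toZFSet, ← isLimS_toZFSet, ← E.map_toZFSet hα]
  exact (E.transfer (Dl.isLimS (0 : Fin 1)) ![α.toZFSet]
    (by simpa using toZFSet_mem_vonNeumann.2 hα)).symm

theorem oMap_natCast (E : Emb ϑ M J) (n : ℕ) (hn : (n : Ordinal.{u}) < ϑ) :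
    oMap J n = n := by
  induction n with
  | zero => simpa using E.oMap_zero (by simpa using hn)
  | succ n ih =>
    have hs : ((n + 1 : ℕ) : Ordinal.{u}) = Order.succ (n : Ordinal.{u}) := by simp
    rw [hs] at hn ⊢
    rw [E.oMap_succ hn, ih ((Order.lt_succ _).trans hn)]

theorem oMap_omega (E : Emb ϑ M J) (hω : ω < ϑ) : oMap J ω = ω := by
  apply le_antisymm _ (E.le_oMap hω)
  by_contra h
  rw [not_le] at h
  have hωV : (ω : Ordinal.{u}).toZFSet ∈ V_ ϑ := toZFSet_mem_vonNeumann.2 hω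
  -- every nonzero element of `ω` is a successor
  have hD : Dl.{u} (α := Fin 1) (fun _ s => ∀ x ∈ s 0, ¬ IsLimS x) :=
    Dl.ball (P := fun _ x _ => ¬ IsLimS x) 0 (Dl.isLimS none).not
  have h1 := (E.transfer hD ![(ω : Ordinal.{u}).toZFSet] (by simpa using hωV)).1 (by
    intro x hx
    obtain ⟨a, ha, rfl⟩ := mem_toZFSet_iff.1 hx
    rw [isLimS_toZFSet]
    intro hl
    exact absurd (omega0_le_of_isSuccLimit hl) (not_le.2 ha))
  have h2 : ∀ x ∈ J (ω : Ordinal.{u}).toZFSet, ¬ IsLimS x := h1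
  rw [E.map_toZFSet hω] at h2
  exact h2 _ (toZFSet_mem_toZFSet_iff.2 h) (isLimS_toZFSet.2 isSuccLimit_omega0)

/-- `J (V_α) = V_{J α} ∩ M`. -/
theorem mem_map_vonNeumann (E : Emb ϑ M J) {α : Ordinal.{u}} (hα : α < ϑ) (z : ZFSet.{u}) :
    z ∈ J (V_ α) ↔ z ∈ M ∧ rank z < oMap J α := by
  have h := (E.transfer (Dl.isV (0 : Fin 2) 1) ![α.toZFSet, V_ α]
    (by simp only [Fin.forall_fin_two]; exact ⟨toZFSet_mem_vonNeumann.2 hα,
      vonNeumann_mem_vonNeumann.2 hα⟩)).1 (isV_vonNeumann hα)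
  have h' : IsV M (J α.toZFSet) (J (V_ α)) := h
  exact h'.mem_iff E.trans (E.mapsTo (toZFSet_mem_vonNeumann.2 hα))
    (E.mapsTo (vonNeumann_mem_vonNeumann.2 hα)) z

theorem map_vonNeumann_of_subset (E : Emb ϑ M J) {α : Ordinal.{u}} (hα : α < ϑ)
    (h : V_ (oMap J α) ⊆ M) : J (V_ α) = V_ (oMap J α) := by
  ext z
  rw [E.mem_map_vonNeumann hα, mem_vonNeumann]
  exact ⟨fun h => h.2, fun h' => ⟨h (mem_vonNeumann.2 h'), h'⟩⟩

theorem rank_map_lt (E : Emb ϑ M J) {α : Ordinal.{u}} (hα : α < ϑ) {x : ZFSet.{u}}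
    (hx : rank x < α) : rank (J x) < oMap J α := by
  have hxV : x ∈ V_ ϑ := mem_vonNeumann.2 (hx.trans hα)
  have : J x ∈ J (V_ α) :=
    (E.mem_iff hxV (vonNeumann_mem_vonNeumann.2 hα)).2 (mem_vonNeumann.2 hx)
  exact ((E.mem_map_vonNeumann hα _).1 this).2

theorem map_pair (E : Emb ϑ M J) {x y : ZFSet.{u}} (h : pair x y ∈ V_ ϑ) :
    J (pair x y) = pair (J x) (J y) := by
  have hx : x ∈ V_ ϑ := by
    refine (isTransitive_vonNeumann ϑ).mem_trans (?_ : x ∈ ({x} : ZFSet)) 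
      ((isTransitive_vonNeumann ϑ).mem_trans (?_ : ({x} : ZFSet) ∈ pair x y) h)
    · simp
    · simp [pair]
  have hy : y ∈ V_ ϑ := by
    refine (isTransitive_vonNeumann ϑ).mem_trans (?_ : y ∈ ({x, y} : ZFSet)) 
      ((isTransitive_vonNeumann ϑ).mem_trans (?_ : ({x, y} : ZFSet) ∈ pair x y) h)
    · simp
    · simp [pair]
  exact (E.transfer (Dl.isPair (0 : Fin 3) 1 2) ![pair x y, x, y]
    (by simp only [Fin.forall_fin_succ]; simpa using ⟨h, hx, hy⟩)).1 rfl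

/-- Relative to `M`, levels exist below and at every `J α`. -/
theorem exists_isV (E : Emb ϑ M J) {α β : Ordinal.{u}} (hα : α < ϑ) (hβ : β ≤ oMap J α) :
    ∃ v ∈ M, IsV M β.toZFSet v := by
  rcases hβ.eq_or_lt with rfl | hβ
  · refine ⟨J (V_ α), E.mapsTo (vonNeumann_mem_vonNeumann.2 hα), ?_⟩
    rw [← E.map_toZFSet hα]
    exact (E.transfer (Dl.isV (0 : Fin 2) 1) ![α.toZFSet, V_ α]
      (by simp only [Fin.forall_fin_two]; exact ⟨toZFSet_mem_vonNeumann.2 hα,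
        vonNeumann_mem_vonNeumann.2 hα⟩)).1 (isV_vonNeumann hα)
  · have hD : Dl.{u} (α := Fin 1) (fun U s => ∀ b ∈ s 0, ∃ v ∈ U, IsV U b v) :=
      Dl.ball (P := fun U b _ => ∃ v ∈ U, IsV U b v) 0
        (Dl.ex (P := fun U v s => IsV U (s none) v) (Dl.isV (some none) none))
    have h1 := (E.transfer hD ![α.toZFSet] (by simpa using toZFSet_mem_vonNeumann.2 hα)).1 (by
      intro b hb
      obtain ⟨a, ha, rfl⟩ := mem_toZFSet_iff.1 hb
      exact ⟨V_ a, vonNeumann_mem_vonNeumann.2 (ha.trans hα), isV_vonNeumann (ha.trans hα)⟩)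
    have h2 : ∀ b ∈ J α.toZFSet, ∃ v ∈ M, IsV M b v := h1
    rw [E.map_toZFSet hα] at h2
    exact h2 _ (toZFSet_mem_toZFSet_iff.2 hβ)

end Emb

end Pool.Agent.Helper90.Gss
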