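import Pool.Agent.Helper90.Gss.Core

/-!
# Bridging lemmas to Mathlib cardinals
-/

open FirstOrder FirstOrder.Language

universe u

namespace Pool.Agent.Helper90.Gss

open ZFSet Ordinal Cardinal

theorem reg_of_isRegular {k : Cardinal.{u}} (hk : k.IsRegular) : Reg k.ord := by
  intro ρ hρ f hf
  have h1 : #ρ.ToType < k.ord.cof := by
    rw [mk_toType, hk.cof_ord]
    exact Cardinal.lt_ord.1 hρ
  refine ⟨⨆ i : ρ.ToType, f ((ToType.mk (o := ρ)).symm i).1 + 1,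
    iSup_add_one_lt_of_lt_cof h1 (fun i => hf _ ((ToType.mk (o := ρ)).symm i).2), fun a ha => ?_⟩
  have := Ordinal.lt_iSup_add_one (fun i : ρ.ToType => f ((ToType.mk (o := ρ)).symm i).1)
    (ToType.mk (o := ρ) ⟨a, ha⟩)
  simpa using this

theorem IsIna.exists_cardinal {Ω : Ordinal.{u}} (h : IsIna Ω) :
    ∃ c : Cardinal.{u}, c.IsInaccessible ∧ c.ord = Ω := by
  have hcof : Ω ≤ Ω.cof.ord := by
    by_contra hlt
    rw [not_le] at hlt
    obtain ⟨f, hf⟩ := exists_isFundamentalSeq (o := Ω) (a := Ω.cof.ord) rfl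
    obtain ⟨β, hβ, H⟩ := h.bound_ord hlt (fun a => if h : a < Ω.cof.ord then (f ⟨a, h⟩).1 else 0) (by
      intro a ha
      rw [dif_pos ha]
      exact (f ⟨a, ha⟩).2)
    have h1 := hf.iSup_add_one_eq
    have h2 : (⨆ i, (f i).1 + 1) ≤ β := by
      refine Ordinal.iSup_le fun i => ?_
      have := H i.1 i.2
      rw [dif_pos (show i.1 < Ω.cof.ord from i.2)] at this
      exact Order.succ_le_of_lt this
    rw [h1] at h2
    exact absurd hβ (not_lt.2 h2)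
  have hord : Ω.card.ord = Ω := by
    apply le_antisymm (ord_card_le Ω)
    exact hcof.trans (Cardinal.ord_le_ord.2 (cof_le_card Ω))
  refine ⟨Ω.card, ⟨?_, ?_, ?_⟩, hord⟩
  · rw [← Cardinal.ord_lt_ord, hord, ord_aleph0]
    exact h.1
  · rw [hord, ← Cardinal.ord_le_ord, hord]
    exact hcof
  · intro x hx
    by_contra hcon
    rw [not_lt] at hcon
    have hx' : x.ord < Ω := by rw [← hord]; exact Cardinal.ord_lt_ord.2 hx
    -- the powerset of `x` surjects onto `Ω`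
    have h1 : #(Set.Iio Ω) ≤ #(Set (Set.Iio x.ord)) := by
      rw [mk_set, Cardinal.mk_Iio_ordinal, Cardinal.mk_Iio_ordinal, card_ord, ← Cardinal.lift_two_power]
      exact Cardinal.lift_le.2 hcon
    obtain ⟨e⟩ := Cardinal.le_def _ _ |>.1 h1
    -- code subsets of `x.ord` by elements of the powerset
    have h2 : powerset x.ord.toZFSet ∈ V_ Ω := h.powerset_mem (toZFSet_mem_vonNeumann.2 hx')
    classical
    let F : ZFSet.{u} → Ordinal.{u} := fun y =>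
      if hy : ∃ a : Set.Iio Ω, e a = {b : Set.Iio x.ord | b.1.toZFSet ∈ y} then (hy.choose).1 else 0
    obtain ⟨β, hβ, H⟩ := h.2 _ h2 F (by
      intro y _
      by_cases hy : ∃ a : Set.Iio Ω, e a = {b : Set.Iio x.ord | b.1.toZFSet ∈ y}
      · simp only [F, dif_pos hy]
        exact hy.choose.2
      · simp only [F, dif_neg hy]
        exact omega0_pos.trans h.1)
    let y : ZFSet.{u} := ZFSet.sep (fun z => ∃ b : Set.Iio x.ord, b ∈ e ⟨β, hβ⟩ ∧ z = b.1.toZFSet)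
      x.ord.toZFSet
    have hy : y ∈ powerset x.ord.toZFSet := mem_powerset.2 sep_subset
    have hyβ : e ⟨β, hβ⟩ = {b : Set.Iio x.ord | b.1.toZFSet ∈ y} := by
      ext b
      simp only [y, Set.mem_ofPred_eq, mem_sep]
      constructor
      · intro hb
        exact ⟨toZFSet_mem_toZFSet_iff.2 b.2, b, hb, rfl⟩
      · rintro ⟨_, b', hb', hbb⟩
        have : b = b' := Subtype.ext (toZFSet_injective hbb)
        rw [this]
        exact hb'
    have hex : ∃ a : Set.Iio Ω, e a = {b : Set.Iio x.ord | b.1.toZFSet ∈ y} := ⟨_, hyβ⟩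
    have h3 := H y hy
    simp only [F, dif_pos hex] at h3
    have h4 : hex.choose = ⟨β, hβ⟩ := e.injective (by rw [hex.choose_spec, hyβ])
    rw [h4] at h3
    exact lt_irrefl _ h3

/-- A transferred surjection bounds cardinalities. -/
theorem Emb.card_le {θ κ κ₀ : Ordinal.{u}} {N : ZFSet.{u}} {j : ZFSet.{u} → ZFSet.{u}}
    (E : Emb (Order.succ θ) N j) (hθ : Order.IsSuccLimit θ) (hκ : κ < θ) (hκ₀ : κ₀ < θ)
    (hc : κ.card ≤ κ₀.card) (h0 : 0 < κ) : (oMap j κ).card ≤ (oMap j κ₀).card := by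
  classical
  -- a surjection on ordinals
  have h1 : #(Set.Iio κ) ≤ #(Set.Iio κ₀) := by
    rw [Cardinal.mk_Iio_ordinal, Cardinal.mk_Iio_ordinal]
    exact Cardinal.lift_le.2 hc
  obtain ⟨e⟩ := Cardinal.le_def _ _ |>.1 h1
  let g : ZFSet.{u} → ZFSet.{u} := fun x =>
    if hx : ∃ a : Set.Iio κ, (e a).1.toZFSet = x then (hx.choose).1.toZFSet else (0 : Ordinal).toZFSet
  have hmap : ∀ x ∈ κ₀.toZFSet, g x ∈ κ.toZFSet := by
    intro x _
    by_cases hx : ∃ a : Set.Iio κ, (e a).1.toZFSet = x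
    · simp only [g, dif_pos hx]
      exact toZFSet_mem_toZFSet_iff.2 hx.choose.2
    · simp only [g, dif_neg hx]
      exact toZFSet_mem_toZFSet_iff.2 h0
  set G := graphOn κ₀.toZFSet g with hG
  have hGf : IsFunc κ₀.toZFSet κ.toZFSet G := isFunc_graphOn hmap
  have hκV : κ.toZFSet ∈ V_ θ := toZFSet_mem_vonNeumann.2 hκ
  have hκ₀V : κ₀.toZFSet ∈ V_ θ := toZFSet_mem_vonNeumann.2 hκ₀
  have hsub : V_ θ ⊆ V_ (Order.succ θ) := vonNeumann_subset_of_le (Order.le_succ θ)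
  have hGV : G ∈ V_ θ := func_mem_vonNeumann hθ hκ₀V hκV hGf
  have hsurj : ∀ y ∈ κ.toZFSet, ∃ x ∈ κ₀.toZFSet, pair x y ∈ G := by
    intro y hy
    obtain ⟨b, hb, rfl⟩ := mem_toZFSet_iff.1 hy
    have hx : ∃ a : Set.Iio κ, (e a).1.toZFSet = (e ⟨b, hb⟩).1.toZFSet := ⟨_, rfl⟩
    have hm : (e ⟨b, hb⟩).1.toZFSet ∈ κ₀.toZFSet := toZFSet_mem_toZFSet_iff.2 (e ⟨b, hb⟩).2
    refine ⟨(e ⟨b, hb⟩).1.toZFSet, hm, ?_⟩
    rw [pair_mem_iff hGf]
    refine ⟨hm, ?_⟩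
    rw [hG, app_graphOn hmap hm]
    simp only [g, dif_pos hx]
    have h2 : hx.choose = ⟨b, hb⟩ :=
      e.injective (Subtype.ext (toZFSet_injective hx.choose_spec))
    rw [h2]
  have hD : Dl.{u} (α := Fin 3) (fun _ s => IsFunc (s 0) (s 1) (s 2) ∧
      ∀ y ∈ s 1, ∃ x ∈ s 0, pair x y ∈ s 2) :=
    (Dl.isFunc _ _ _).and (Dl.ball (P := fun _ y s => ∃ x ∈ s 0, pair x y ∈ s 2) 1
      (Dl.bex (P := fun _ x s => pair x (s none) ∈ s (some 2)) (some 0) (Dl.pairMem _ _ _)))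
  have h2 := (E.transfer hD ![κ₀.toZFSet, κ.toZFSet, G] (by
    intro i
    fin_cases i
    · exact hsub hκ₀V
    · exact hsub hκV
    · exact hsub hGV)).1 ⟨hGf, hsurj⟩
  have h3 : IsFunc (j κ₀.toZFSet) (j κ.toZFSet) (j G) ∧
      ∀ y ∈ j κ.toZFSet, ∃ x ∈ j κ₀.toZFSet, pair x y ∈ j G := h2
  rw [E.map_toZFSet (hκ₀.trans (Order.lt_succ θ)), E.map_toZFSet (hκ.trans (Order.lt_succ θ))]
    at h3
  obtain ⟨h4, h5⟩ := h3
  have h6 : #(Set.Iio (oMap j κ)) ≤ #(Set.Iio (oMap j κ₀)) := by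
    refine Cardinal.mk_le_of_surjective (f := fun a : Set.Iio (oMap j κ₀) =>
      (⟨rank (app (j G) a.1.toZFSet), ?_⟩ : Set.Iio (oMap j κ))) ?_
    · have := app_mem h4 (toZFSet_mem_toZFSet_iff.2 a.2)
      obtain ⟨b, hb, hb'⟩ := mem_toZFSet_iff.1 this
      rw [← hb', rank_toZFSet]
      exact hb
    · rintro ⟨b, hb⟩
      obtain ⟨x, hx, hxb⟩ := h5 _ (toZFSet_mem_toZFSet_iff.2 hb)
      obtain ⟨a, ha, rfl⟩ := mem_toZFSet_iff.1 hx
      refine ⟨⟨a, ha⟩, Subtype.ext ?_⟩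
      show rank (app (j G) a.toZFSet) = b
      rw [app_eq h4 hx hxb, rank_toZFSet]
  rw [Cardinal.mk_Iio_ordinal, Cardinal.mk_Iio_ordinal] at h6
  exact Cardinal.lift_le.1 h6

/-- The least large ordinal is a cardinal. -/
theorem Pz.ord_card {Ω κ : Ordinal.{u}} (hΩ : IsIna Ω) (hκ : κ < Ω) (hP : Pz Ω κ) :
    Pz Ω κ.card.ord := by
  obtain ⟨c, hc, rfl⟩ := hΩ.exists_cardinal
  intro θ hθ hθl hκθ l hl
  have hΩl := hΩ.isSuccLimit
  obtain ⟨θ₂, hθ₂Ω, hθ₂l, hθ₂⟩ := hΩ.exists_limit (max_lt hθ hκ)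
  have hθθ₂ : θ < θ₂ := (le_max_left _ _).trans_lt hθ₂
  have hκθ₂ : κ < θ₂ := (le_max_right _ _).trans_lt hθ₂
  have hl₂ : (Order.succ l.card).ord < c.ord := by
    rw [Cardinal.ord_lt_ord]
    exact hc.isSuccLimit.succ_lt (Cardinal.lt_ord.1 hl)
  obtain ⟨τ, _, hlτ, _, _, _, N, hN, j, E, hj, hV, _⟩ := hP θ₂ hθ₂Ω hθ₂l hκθ₂ _ hl₂
  have hκ0 : 0 < κ := omega0_pos.trans_le (hP.omega_le hΩ)
  have hκ₀κ : κ.card.ord ≤ κ := ord_card_le κ
  have hκ₀θ₂ : κ.card.ord < θ₂ := hκ₀κ.trans_lt hκθ₂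
  have h1 := E.restrict_ER hN hκθ₂ (by rw [hj]; exact hV) hθl hθθ₂ hθ₂Ω hκ₀κ hκθ
  refine ⟨oMap j κ.card.ord, ?_, ?_, h1⟩
  · have h5 : (oMap j κ.card.ord).toZFSet ∈ N := E.oMap_mem (hκ₀θ₂.trans (Order.lt_succ θ₂))
    exact toZFSet_mem_vonNeumann.1 ((isTransitive_vonNeumann _).mem_trans h5 hN)
  · by_contra hcon
    rw [not_lt] at hcon
    have h2 := E.card_le hθ₂l hκθ₂ hκ₀θ₂ (by rw [Cardinal.card_ord]) hκ0
    rw [hj] at h2
    have h3 : τ.card ≤ l.card := h2.trans (card_le_card hcon)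
    have h4 : τ < (Order.succ l.card).ord := Cardinal.lt_ord.2 (h3.trans_lt (Order.lt_succ _))
    exact absurd hlτ (not_lt.2 h4.le)

end Pool.Agent.Helper90.Gss
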