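import Pool.Agent.Helper90.Gss.Regular

/-!
# Hulls and collapses
-/

open FirstOrder FirstOrder.Language

universe u

namespace Pool.Agent.Helper90.Gss

open ZFSet Ordinal

/-- The Mostowski collapse relative to a class `S`. -/
noncomputable def coll (S : Set ZFSet.{u}) (x : ZFSet.{u}) : ZFSet.{u} :=
  range (fun y : {y : ↥x // (y : ZFSet.{u}) ∈ S} => coll S (y.1 : ZFSet.{u}))
termination_by x
decreasing_by exact y.1.2

theorem mem_coll {S : Set ZFSet.{u}} {x z : ZFSet.{u}} :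
    z ∈ coll S x ↔ ∃ y ∈ x, y ∈ S ∧ coll S y = z := by
  rw [coll, mem_range]
  constructor
  · rintro ⟨⟨⟨y, hy⟩, hyS⟩, rfl⟩
    exact ⟨y, hy, hyS, rfl⟩
  · rintro ⟨y, hy, hyS, rfl⟩
    exact ⟨⟨⟨y, hy⟩, hyS⟩, rfl⟩

/-- Extensionality of a class. -/
def ExtS (S : Set ZFSet.{u}) : Prop :=
  ∀ x ∈ S, ∀ y ∈ S, (∀ z ∈ S, z ∈ x ↔ z ∈ y) → x = y

theorem coll_inj {S : Set ZFSet.{u}} (hS : ExtS S) {x : ZFSet.{u}} (hx : x ∈ S) :
    ∀ y ∈ S, coll S x = coll S y → x = y := by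
  induction x using ZFSet.inductionOn with
  | _ x ih =>
  intro y hy h
  apply hS x hx y hy
  intro z hz
  constructor
  · intro hzx
    have h1 : coll S z ∈ coll S y := by
      rw [← h]
      exact mem_coll.2 ⟨z, hzx, hz, rfl⟩
    obtain ⟨w, hwy, hwS, hw⟩ := mem_coll.1 h1
    rw [ih z hzx hz w hwS hw.symm]
    exact hwy
  · intro hzy
    have h1 : coll S z ∈ coll S x := by
      rw [h]
      exact mem_coll.2 ⟨z, hzy, hz, rfl⟩
    obtain ⟨w, hwx, hwS, hw⟩ := mem_coll.1 h1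
    rw [← ih w hwx hwS z hz hw]
    exact hwx

theorem coll_mem_iff {S : Set ZFSet.{u}} (hS : ExtS S) {x y : ZFSet.{u}} (hx : x ∈ S)
    (_ : y ∈ S) : coll S x ∈ coll S y ↔ x ∈ y := by
  constructor
  · intro h
    obtain ⟨w, hwy, hwS, hw⟩ := mem_coll.1 h
    rw [coll_inj hS hx w hwS hw.symm]
    exact hwy
  · intro h
    exact mem_coll.2 ⟨x, h, hx, rfl⟩

theorem coll_eq_self {S : Set ZFSet.{u}} {T : ZFSet.{u}} (hT : T.IsTransitive)
    (hTS : ∀ x ∈ T, x ∈ S) (x : ZFSet.{u}) (hx : x ⊆ T) : coll S x = x := by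
  induction x using ZFSet.inductionOn with
  | _ x ih =>
  ext z
  rw [mem_coll]
  constructor
  · rintro ⟨y, hy, _, rfl⟩
    rw [ih y hy (hT.subset_of_mem (hx hy))]
    exact hy
  · intro hz
    exact ⟨z, hz, hTS z (hx hz), ih z hz (hT.subset_of_mem (hx hz))⟩

/-- In a transitive set, all ranks below the rank of the set occur. -/
theorem exists_rank_eq {N : ZFSet.{u}} (hN : N.IsTransitive) {β : Ordinal.{u}}
    (hβ : β < rank N) : ∃ x ∈ N, rank x = β := by
  have key : ∀ y : ZFSet.{u}, y ∈ N → β ≤ rank y → ∃ x ∈ N, rank x = β := by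
    intro y
    induction y using ZFSet.inductionOn with
    | _ y ih =>
    intro hy hβy
    rcases hβy.eq_or_lt with h | h
    · exact ⟨y, hy, h.symm⟩
    · obtain ⟨z, hz, hβz⟩ := lt_rank_iff.1 h
      exact ih z hz (hN.mem_trans hz hy) hβz
  obtain ⟨y, hy, h⟩ := lt_rank_iff.1 hβ
  exact key y hy h

/-- The formula saying that two sets differ. -/
def diffFormula : LSet.Formula (Fin 2) :=
  (BoundedFormula.not (((memSym.boundedFormula₂ (Term.var (Sum.inr 0)) (Term.var (Sum.inl 0))) :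
    LSet.BoundedFormula (Fin 2) 1).iff
    (memSym.boundedFormula₂ (Term.var (Sum.inr 0)) (Term.var (Sum.inl 1))))).ex

theorem extS_of_elementary {N : ZFSet.{u}} (hN : N.IsTransitive)
    (H : LSet.ElementarySubstructure ↥N) :
    ExtS {x : ZFSet.{u} | ∃ h : x ∈ N, (⟨x, h⟩ : ↥N) ∈ H} := by
  rintro x ⟨hx, hxH⟩ y ⟨hy, hyH⟩ hxy
  by_contra hne
  have h1 : diffFormula.Realize (M := ↥N) ![⟨x, hx⟩, ⟨y, hy⟩] := by
    unfold diffFormula Formula.Realize
    rw [BoundedFormula.realize_ex]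
    by_contra hcon
    push Not at hcon
    apply hne
    ext z
    constructor
    · intro hz
      have := hcon ⟨z, hN.mem_trans hz hx⟩
      rw [BoundedFormula.realize_not, not_not, BoundedFormula.realize_iff] at this
      exact this.1 hz
    · intro hz
      have := hcon ⟨z, hN.mem_trans hz hy⟩
      rw [BoundedFormula.realize_not, not_not, BoundedFormula.realize_iff] at this
      exact this.2 hz
  have h2 := H.subtype.map_formula diffFormula ![⟨⟨x, hx⟩, hxH⟩, ⟨⟨y, hy⟩, hyH⟩]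
  have h3 : (H.subtype ∘ ![(⟨⟨x, hx⟩, hxH⟩ : H), ⟨⟨y, hy⟩, hyH⟩]) =
      ![(⟨x, hx⟩ : ↥N), ⟨y, hy⟩] := by
    funext i
    fin_cases i <;> rfl
  rw [h3] at h2
  have h4 := h2.1 h1
  unfold diffFormula Formula.Realize at h4
  rw [BoundedFormula.realize_ex] at h4
  obtain ⟨⟨⟨z, hz⟩, hzH⟩, h5⟩ := h4
  rw [BoundedFormula.realize_not, BoundedFormula.realize_iff] at h5
  exact h5 (hxy z ⟨hz, hzH⟩)

end Pool.Agent.Helper90.Gss
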