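import Pool.Agent.Helper90.Gss.Hull

/-!
# The hull argument: small witnesses
-/

open FirstOrder FirstOrder.Language

universe u

namespace Pool.Agent.Helper90.Gss

open ZFSet Ordinal Cardinal

theorem aleph0_le_mk_vonNeumann {Ω : Ordinal.{u}} (hω : ω ≤ Ω) : ℵ₀ ≤ #↥(V_ Ω) := by
  have : Infinite ↥(V_ Ω) := by
    refine Infinite.of_injective (fun n : ℕ => (⟨(n : Ordinal.{u}).toZFSet,
      toZFSet_mem_vonNeumann.2 ((natCast_lt_omega0 n).trans_le hω)⟩ : ↥(V_ Ω))) ?_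
    intro m n h
    have h1 := toZFSet_injective (Subtype.ext_iff.1 h)
    exact_mod_cast h1
  exact Cardinal.infinite_iff.1 this

theorem lset_card_le : LSet.card ≤ ℵ₀ := by
  have : Countable LSet.Symbols := inferInstance
  exact Cardinal.mk_le_aleph0_iff.2 this

/-- From an embedding `J` with `J κ = Ω`, `V_Ω ⊆ M`, one gets witnesses inside `V_{Ω'}` for every
inaccessible `Ω' > Ω`. -/
theorem hull {ϑ : Ordinal.{u}} {M : ZFSet.{u}} {J : ZFSet.{u} → ZFSet.{u}} (E : Emb ϑ M J)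
    {κ θ Ω' : Ordinal.{u}} (hθl : Order.IsSuccLimit θ) (hθϑ : Order.succ θ < ϑ) (hκθ : κ < θ)
    (hθΩ : θ < oMap J κ) (hV : V_ (oMap J κ) ⊆ M) (hΩ' : IsIna Ω') (hlt : oMap J κ < Ω') :
    ER Ω' κ θ (oMap J κ) (oMap J κ) := by
  set Ω := oMap J κ with hΩdef
  have hκθ' : κ < Order.succ θ := hκθ.trans (Order.lt_succ θ)
  have hκϑ : κ < ϑ := hκθ'.trans hθϑ
  have E1 : Emb (Order.succ θ) (J (V_ (Order.succ θ))) J := E.restrict hθϑ
  set N0 := J (V_ (Order.succ θ)) with hN0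
  have hVN0 : V_ Ω ⊆ N0 := by
    intro z hz
    rw [hN0, E.mem_map_vonNeumann hθϑ]
    exact ⟨hV hz, (mem_vonNeumann.1 hz).trans ((E.oMap_lt_iff hκϑ hθϑ).2 hκθ')⟩
  have hωΩ : ω ≤ Ω := (omega0_le_of_isSuccLimit hθl).trans hθΩ.le
  have hinf := aleph0_le_mk_vonNeumann hωΩ
  have hθV : V_ (Order.succ θ) ⊆ V_ Ω := vonNeumann_subset_of_le (Order.succ_le_of_lt hθΩ)
  -- the generating set
  let s1 : Set ↥N0 := {y | (y : ZFSet.{u}) ∈ V_ Ω}
  let s2 : Set ↥N0 := {y | ∃ x ∈ V_ (Order.succ θ), J x = y}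
  have hs1 : #s1 ≤ #↥(V_ Ω) := by
    refine Cardinal.mk_le_of_injective (f := fun y : s1 => (⟨(y.1 : ZFSet.{u}), y.2⟩ : ↥(V_ Ω))) ?_
    intro a b h
    simp only [Subtype.mk.injEq] at h
    exact Subtype.ext (Subtype.ext h)
  have hs2 : #s2 ≤ #↥(V_ Ω) := by
    have h1 : ∀ y : s2, ∃ x : ↥(V_ Ω), J x = (y.1 : ZFSet.{u}) := by
      rintro ⟨y, x, hx, hxy⟩
      exact ⟨⟨x, hθV hx⟩, hxy⟩
    choose f hf using h1
    refine Cardinal.mk_le_of_injective (f := f) ?_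
    intro a b h
    apply Subtype.ext
    apply Subtype.ext
    rw [← hf a, ← hf b, h]
  have hs : #(s1 ∪ s2 : Set ↥N0) ≤ #↥(V_ Ω) := by
    refine (Cardinal.mk_union_le _ _).trans ?_
    refine (add_le_add hs1 hs2).trans ?_
    rw [Cardinal.add_eq_self hinf]
  have hN0card : #↥(V_ Ω) ≤ #↥N0 := by
    refine Cardinal.mk_le_of_injective (f := fun y : ↥(V_ Ω) => (⟨y, hVN0 y.2⟩ : ↥N0)) ?_
    intro a b h
    simp only [Subtype.mk.injEq] at h
    exact Subtype.ext h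
  obtain ⟨H, hH, hHcard⟩ := exists_elementarySubstructure_card_eq LSet (M := ↥N0) (s1 ∪ s2)
    (#↥(V_ Ω)) hinf (by simpa using hs) (by
      have h1 : Cardinal.lift.{u + 1} LSet.card ≤ ℵ₀ := by
        rw [← Cardinal.lift_aleph0.{u + 1, 0}, Cardinal.lift_le]
        exact lset_card_le
      simpa using h1.trans hinf) (by simpa using hN0card)
  have hHcard' : #↥H = #↥(V_ Ω) := by simpa using hHcard
  obtain ⟨g⟩ := Cardinal.eq.1 hHcard'
  -- the collapse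
  set S : Set ZFSet.{u} := {x : ZFSet.{u} | ∃ h : x ∈ N0, (⟨x, h⟩ : ↥N0) ∈ H} with hS
  have hext : ExtS S := extS_of_elementary E1.trans H
  have hVS : ∀ x ∈ V_ Ω, x ∈ S := fun x hx => ⟨hVN0 hx, hH (Or.inl hx)⟩
  have hJS : ∀ x ∈ V_ (Order.succ θ), J x ∈ S := fun x hx =>
    ⟨E1.mapsTo hx, hH (Or.inr ⟨x, hx, rfl⟩)⟩
  have hsmall : Small.{u} {y : ↥N0 // y ∈ H} := inferInstance
  set N' : ZFSet.{u} := range (fun y : {y : ↥N0 // y ∈ H} => coll S (y.1 : ZFSet.{u})) with hN'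
  have hmemN' : ∀ z, z ∈ N' ↔ ∃ x ∈ S, coll S x = z := by
    intro z
    rw [hN', mem_range]
    constructor
    · rintro ⟨⟨⟨y, hy⟩, hyH⟩, rfl⟩
      exact ⟨y, ⟨hy, hyH⟩, rfl⟩
    · rintro ⟨x, ⟨hx, hxH⟩, rfl⟩
      exact ⟨⟨⟨x, hx⟩, hxH⟩, rfl⟩
  have hN't : N'.IsTransitive := by
    intro y hy z hz
    obtain ⟨x, _, rfl⟩ := (hmemN' y).1 hy
    obtain ⟨w, _, hwS, rfl⟩ := mem_coll.1 hz
    exact (hmemN' _).2 ⟨w, hwS, rfl⟩
  have hid : ∀ x, x ⊆ V_ Ω → coll S x = x := fun x hx =>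
    coll_eq_self (isTransitive_vonNeumann Ω) hVS x hx
  -- the collapsed map is elementary
  have hel : IsElemMap (V_ (Order.succ θ)) N' (fun x => coll S (J x)) := by
    obtain ⟨f, hf⟩ := E1.elem
    -- map into the substructure
    have hfH : ∀ x : ↥(V_ (Order.succ θ)), f x ∈ H := by
      intro x
      refine hH (Or.inr ⟨x, x.2, ?_⟩)
      exact (hf x).symm
    let f1 : ↥(V_ (Order.succ θ)) ↪ₑ[LSet] ↥H :=
      { toFun := fun x => ⟨f x, hfH x⟩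
        map_formula' := fun n φ x => by
          have h1 := H.subtype.map_formula φ (fun i => (⟨f (x i), hfH (x i)⟩ : ↥H))
          have h2 := f.map_formula φ x
          exact h1.symm.trans h2 }
    let c : ↥H ≃ ↥N' := Equiv.ofBijective
      (fun y => ⟨coll S ((y : ↥N0) : ZFSet.{u}), (hmemN' _).2 ⟨_, ⟨y.1.2, y.2⟩, rfl⟩⟩) (by
        constructor
        · intro a b h
          apply Subtype.ext
          apply Subtype.ext
          exact coll_inj hext ⟨a.1.2, a.2⟩ _ ⟨b.1.2, b.2⟩ (Subtype.ext_iff.1 h)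
        · rintro ⟨z, hz⟩
          obtain ⟨x, ⟨hx, hxH⟩, rfl⟩ := (hmemN' z).1 hz
          exact ⟨⟨⟨x, hx⟩, hxH⟩, rfl⟩)
    let c1 : ↥H ≃[LSet] ↥N' :=
      { toEquiv := c
        map_fun' := fun f => Empty.elim f
        map_rel' := fun {n} r x => by
          cases r
          exact coll_mem_iff hext ⟨(x 0).1.2, (x 0).2⟩ ⟨(x 1).1.2, (x 1).2⟩ }
    refine ⟨c1.toElementaryEmbedding.comp f1, fun x => ?_⟩
    show coll S ((f x : ↥N0) : ZFSet.{u}) = coll S (J x)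
    rw [hf x]
  have E' : Emb (Order.succ θ) N' (fun x => coll S (J x)) := ⟨hN't, hel⟩
  -- the image of `κ`
  have hκmap : oMap (fun x => coll S (J x)) κ = Ω := by
    show rank (coll S (J κ.toZFSet)) = Ω
    rw [E.map_toZFSet hκϑ, ← hΩdef, hid _ Ω.toZFSet_subset_vonNeumann, rank_toZFSet]
  have hVN' : V_ Ω ⊆ N' := fun x hx => (hmemN' x).2
    ⟨x, hVS x hx, hid x ((isTransitive_vonNeumann Ω).subset_of_mem hx)⟩
  -- the rank of `N'`
  have hrank : rank N' < Ω' := by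
    by_contra hcon
    rw [not_lt] at hcon
    classical
    obtain ⟨β, hβ, Hβ⟩ := hΩ'.2 (V_ Ω) (vonNeumann_mem_vonNeumann.2 hlt)
      (fun b => if h : b ∈ V_ Ω then
        (if rank (coll S ((g.symm ⟨b, h⟩ : ↥N0) : ZFSet.{u})) < Ω' then
          rank (coll S ((g.symm ⟨b, h⟩ : ↥N0) : ZFSet.{u})) else 0) else 0) (by
        intro b hb
        have h0 : 0 < Ω' := omega0_pos.trans hΩ'.1
        simp only [hb, dif_pos]
        split_ifs with h
        · exact h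
        · exact h0)
    obtain ⟨x, hx, hxβ⟩ := exists_rank_eq hN't (hβ.trans_le hcon)
    obtain ⟨y, ⟨hyN, hyH⟩, rfl⟩ := (hmemN' x).1 hx
    have h1 := Hβ (g ⟨⟨y, hyN⟩, hyH⟩) (g ⟨⟨y, hyN⟩, hyH⟩).2
    simp only [SetLike.coe_mem, dif_pos, Subtype.coe_eta, Equiv.symm_apply_apply] at h1
    rw [if_pos (by rw [hxβ]; exact hβ), hxβ] at h1
    exact lt_irrefl _ h1
  refine ⟨hθl, hκθ, hθΩ.trans hlt, N', mem_vonNeumann.2 hrank, _, E', hκmap, hVN', ?_⟩
  intro β hβ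
  rw [← hκmap]
  exact (E'.oMap_lt_iff (hβ.trans hκθ') hκθ').2 hβ

end Pool.Agent.Helper90.Gss
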