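import Pool.Agent.Helper90.Gss.Notions

/-!
# The cumulative hierarchy inside transitive structures, and elementary maps `V_ϑ → M`
-/

open FirstOrder FirstOrder.Language

universe u

namespace Pool.Agent.Helper90.Gss

open ZFSet

/-- `h` is a history witnessing that `v` is a level (relative to the transitive structure `U`). -/
def LevH (U v h : ZFSet.{u}) : Prop :=
  (∀ c ∈ h, ∀ z ∈ U, z ∈ c ↔ ∃ d ∈ h, d ∈ c ∧ z ⊆ d) ∧ (∀ z ∈ U, z ∈ v ↔ ∃ d ∈ h, z ⊆ d)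

/-- `v` is the level indexed by the ordinal `b`, relative to `U`. -/
def IsV (U b v : ZFSet.{u}) : Prop :=
  ∃ h ∈ U, LevH U v h ∧ b.IsOrdinal ∧ b ⊆ v ∧ ∀ x ∈ v, x.IsOrdinal → x ∈ b

theorem Dl.levH {α : Type} (i j : α) : Dl.{u} (fun U s => LevH U (s i) (s j)) := by
  refine (ball (P := fun U c s => ∀ z ∈ U, z ∈ c ↔ ∃ d ∈ s j, d ∈ c ∧ z ⊆ d) j
    (all (P := fun U z s => z ∈ s none ↔ ∃ d ∈ s (some j), d ∈ s none ∧ z ⊆ d)
      ((mem none (some none)).iff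
        (bex (P := fun U d s => d ∈ s (some none) ∧ s none ⊆ d) (some (some j))
          ((mem none (some (some none))).and (subset (some none) none)))))).and
    (all (P := fun U z s => z ∈ s i ↔ ∃ d ∈ s j, z ⊆ d)
      ((mem none (some i)).iff
        (bex (P := fun U d s => s none ⊆ d) (some j) (subset (some none) none))))

theorem Dl.isV {α : Type} (i j : α) : Dl.{u} (fun U s => IsV U (s i) (s j)) := by
  refine ex (P := fun U h s => LevH U (s j) h ∧ (s i).IsOrdinal ∧ s i ⊆ s j ∧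
    ∀ x ∈ s j, x.IsOrdinal → x ∈ s i) ?_
  refine (levH (some j) none).and ((isOrdinal (some i)).and ((subset (some i) (some j)).and ?_))
  exact ball (P := fun U x s => x.IsOrdinal → x ∈ s (some i)) (some j)
    ((isOrdinal none).imp (mem none (some (some i))))

theorem LevH.mem_iff {U v h : ZFSet.{u}} (hU : U.IsTransitive) (hh : h ∈ U)
    (H : LevH U v h) (c : ZFSet.{u}) (hc : c ∈ h) :
    ∀ z, z ∈ c ↔ z ∈ U ∧ rank z < rank c := by
  induction c using ZFSet.inductionOn with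
  | _ c ih =>
  intro z
  have hcU : c ∈ U := hU.mem_trans hc hh
  constructor
  · intro hz
    exact ⟨hU.mem_trans hz hcU, rank_lt_of_mem hz⟩
  · rintro ⟨hz, hzc⟩
    obtain ⟨y, hy, hzy⟩ := lt_rank_iff.1 hzc
    obtain ⟨d, hd, hdc, hyd⟩ := (H.1 c hc y (hU.mem_trans hy hcU)).1 hy
    refine (H.1 c hc z hz).2 ⟨d, hd, hdc, fun w hw => ?_⟩
    refine (ih d hdc hd w).2 ⟨hU.mem_trans hw hz, ?_⟩
    exact (rank_lt_of_mem hw).trans_le (hzy.trans (rank_mono hyd))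

theorem LevH.mem_iff' {U v h : ZFSet.{u}} (hU : U.IsTransitive) (hh : h ∈ U) (hv : v ∈ U)
    (H : LevH U v h) : ∀ z, z ∈ v ↔ z ∈ U ∧ rank z < rank v := by
  intro z
  constructor
  · intro hz
    exact ⟨hU.mem_trans hz hv, rank_lt_of_mem hz⟩
  · rintro ⟨hz, hzc⟩
    obtain ⟨y, hy, hzy⟩ := lt_rank_iff.1 hzc
    obtain ⟨d, hd, hyd⟩ := (H.2 y (hU.mem_trans hy hv)).1 hy
    refine (H.2 z hz).2 ⟨d, hd, fun w hw => ?_⟩
    refine (H.mem_iff hU hh d hd w).2 ⟨hU.mem_trans hw hz, ?_⟩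
    exact (rank_lt_of_mem hw).trans_le (hzy.trans (rank_mono hyd))

/-- In a transitive structure `U`, the level indexed by `b` is `V_b ∩ U`. -/
theorem IsV.mem_iff {U b v : ZFSet.{u}} (hU : U.IsTransitive) (hb : b ∈ U) (hv : v ∈ U)
    (H : IsV U b v) : ∀ z, z ∈ v ↔ z ∈ U ∧ rank z < rank b := by
  obtain ⟨h, hh, H1, hbo, hbv, hvb⟩ := H
  have key := H1.mem_iff' hU hh hv
  have hr : rank v = rank b := by
    apply le_antisymm
    · by_contra hlt
      rw [not_le] at hlt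
      -- then `b ∈ v`, contradiction
      have : b ∈ v := (key b).2 ⟨hb, hlt⟩
      exact mem_irrefl _ (hvb b this hbo)
    · exact rank_mono hbv
  intro z
  rw [key z, hr]

theorem isV_vonNeumann {ϑ β : Ordinal.{u}} (hβ : β < ϑ) :
    IsV (V_ ϑ) β.toZFSet (V_ β) := by
  refine ⟨range (fun γ : Set.Iio β => V_ (γ : Ordinal.{u})), ?_, ⟨?_, ?_⟩, isOrdinal_toZFSet β,
    β.toZFSet_subset_vonNeumann, ?_⟩
  · rw [mem_vonNeumann, rank_range]
    refine lt_of_le_of_lt (Ordinal.iSup_le fun i => ?_) hβ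
    rw [rank_vonNeumann]
    exact Order.succ_le_of_lt i.2
  · intro c hc z _
    obtain ⟨γ, rfl⟩ := mem_range.1 hc
    rw [mem_vonNeumann']
    constructor
    · rintro ⟨a, ha, hz⟩
      exact ⟨V_ a, mem_range.2 ⟨⟨a, ha.trans γ.2⟩, rfl⟩, vonNeumann_mem_of_lt ha, hz⟩
    · rintro ⟨d, hd, hdc, hz⟩
      obtain ⟨a, rfl⟩ := mem_range.1 hd
      exact ⟨a, vonNeumann_mem_vonNeumann_iff.1 hdc, hz⟩
  · intro z _
    rw [mem_vonNeumann']
    constructor
    · rintro ⟨a, ha, hz⟩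
      exact ⟨V_ a, mem_range.2 ⟨⟨a, ha⟩, rfl⟩, hz⟩
    · rintro ⟨d, hd, hz⟩
      obtain ⟨a, rfl⟩ := mem_range.1 hd
      exact ⟨a, a.2, hz⟩
  · intro x hx hxo
    rw [mem_vonNeumann] at hx
    rw [← hxo.toZFSet_rank_eq]
    exact Ordinal.toZFSet_mem_toZFSet_iff.2 hx

theorem isV_vonNeumann_iff {ϑ β : Ordinal.{u}} (hβ : β < ϑ) {v : ZFSet.{u}} (hv : v ∈ V_ ϑ) :
    IsV (V_ ϑ) β.toZFSet v ↔ v = V_ β := by
  constructor
  · intro h
    ext z
    have hb : β.toZFSet ∈ V_ ϑ := by rw [mem_vonNeumann, Ordinal.rank_toZFSet]; exact hβ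
    rw [h.mem_iff (isTransitive_vonNeumann _) hb hv z, Ordinal.rank_toZFSet, mem_vonNeumann,
      mem_vonNeumann]
    exact ⟨fun h => h.2, fun h => ⟨h.trans hβ, h⟩⟩
  · rintro rfl
    exact isV_vonNeumann hβ

end Pool.Agent.Helper90.Gss
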