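import Pool.Agent.Helper90.Gss.Basic

/-!
# Definability of basic set-theoretic notions
-/

open FirstOrder FirstOrder.Language

universe u

namespace Pool.Agent.Helper90.Gss

open ZFSet

namespace Dl

variable {α β : Type}

theorem isUPair (i j k : α) : Dl.{u} (fun _ s => s i = {s j, s k}) := by
  refine ((mem j i).and ((mem k i).and
    (ball (P := fun _ x s => x = s j ∨ x = s k) i
      ((eq none (some j)).or (eq none (some k)))))).congr fun U _ s _ => ?_
  constructor
  · rintro ⟨h1, h2, h3⟩
    ext z
    rw [mem_pair]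
    exact ⟨fun hz => h3 z hz, fun hz => by rcases hz with rfl | rfl <;> assumption⟩
  · intro h
    rw [h]
    simp

theorem isSing (i j : α) : Dl.{u} (fun _ s => s i = {s j}) := by
  refine (isUPair i j j).congr fun U _ s _ => ?_
  rw [pair_eq_singleton]

theorem isPair (i j k : α) : Dl.{u} (fun _ s => s i = pair (s j) (s k)) := by
  refine ((ball (P := fun _ x s => x = {s j} ∨ x = {s j, s k}) i
      ((isSing none (some j)).or (isUPair none (some j) (some k)))).and
    ((bex (P := fun _ x s => x = {s j}) i (isSing none (some j))).and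
      (bex (P := fun _ x s => x = {s j, s k}) i (isUPair none (some j) (some k))))).congr
      fun U _ s _ => ?_
  constructor
  · rintro ⟨h1, ⟨x, hx, rfl⟩, ⟨y, hy, rfl⟩⟩
    ext z
    rw [pair, mem_pair]
    exact ⟨fun hz => h1 z hz, fun hz => by rcases hz with rfl | rfl <;> assumption⟩
  · intro h
    rw [h, pair]
    refine ⟨fun x hx => by simpa using hx, ⟨_, by simp, rfl⟩, ⟨_, by simp, rfl⟩⟩

theorem pairMem (i j k : α) : Dl.{u} (fun _ s => pair (s i) (s j) ∈ s k) := by
  refine (bex (P := fun _ x s => x = pair (s i) (s j)) k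
    (isPair none (some i) (some j))).congr fun U _ s _ => ?_
  constructor
  · rintro ⟨x, hx, rfl⟩
    exact hx
  · intro h
    exact ⟨_, h, rfl⟩

theorem isTransitive (i : α) : Dl.{u} (fun _ s => (s i).IsTransitive) :=
  (ball (P := fun _ x s => x ⊆ s i) i (subset none (some i))).congr fun _ _ _ _ => Iff.rfl

theorem isOrdinal (i : α) : Dl.{u} (fun _ s => (s i).IsOrdinal) := by
  refine ((isTransitive i).and
    (ball (P := fun _ x _ => x.IsTransitive) i (isTransitive none))).congr fun _ _ _ _ => ?_
  exact isOrdinal_iff_forall_mem_isTransitive.symm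

theorem isEmpty (i : α) : Dl.{u} (fun _ s => s i = ∅) := by
  refine (ball (P := fun _ _ _ => False) i false).congr fun _ _ s _ => ?_
  rw [ZFSet.eq_empty]

theorem isSucc (i j : α) : Dl.{u} (fun _ s => s i = insert (s j) (s j)) := by
  refine ((mem j i).and ((subset j i).and
    (ball (P := fun _ x s => x = s j ∨ x ∈ s j) i
      ((eq none (some j)).or (mem none (some j)))))).congr fun U _ s _ => ?_
  constructor
  · rintro ⟨h1, h2, h3⟩
    ext z
    rw [mem_insert_iff]
    exact ⟨fun hz => h3 z hz, fun hz => by
      rcases hz with rfl | hz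
      · exact h1
      · exact h2 hz⟩
  · intro h
    rw [h]
    refine ⟨mem_insert _ _, fun x hx => mem_insert_of_mem _ hx, fun x hx => mem_insert_iff.1 hx⟩

/-- Binary intersections. -/
theorem isInter (i j k : α) : Dl.{u} (fun _ s => s i = s j ∩ s k) := by
  refine ((ball (P := fun _ x s => x ∈ s j ∧ x ∈ s k) i
      ((mem none (some j)).and (mem none (some k)))).and
    (ball (P := fun _ x s => x ∈ s k → x ∈ s i) j
      ((mem none (some k)).imp (mem none (some i))))).congr fun U _ s _ => ?_
  constructor
  · rintro ⟨h1, h2⟩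
    ext z
    rw [mem_inter]
    exact ⟨fun hz => h1 z hz, fun hz => h2 z hz.1 hz.2⟩
  · intro h
    rw [h]
    exact ⟨fun x hx => mem_inter.1 hx, fun x hx hx' => mem_inter.2 ⟨hx, hx'⟩⟩

/-- Cartesian products. -/
theorem isProd (i j k : α) : Dl.{u} (fun _ s => s i = prod (s j) (s k)) := by
  refine ((ball (P := fun _ p s => ∃ x ∈ s j, ∃ y ∈ s k, p = pair x y) i
      (bex (P := fun _ x s => ∃ y ∈ s (some k), s none = pair x y) (some j)
        (bex (P := fun _ y s => s (some none) = pair (s none) y) (some (some k))
          (isPair (some (some none)) (some none) none)))).and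
    (ball (P := fun _ x s => ∀ y ∈ s k, pair x y ∈ s i) j
      (ball (P := fun _ y s => pair (s none) y ∈ s (some i)) (some k)
        (pairMem (some none) none (some (some i)))))).congr fun U _ s _ => ?_
  constructor
  · rintro ⟨h1, h2⟩
    ext z
    rw [mem_prod]
    constructor
    · intro hz
      exact h1 z hz
    · rintro ⟨x, hx, y, hy, rfl⟩
      exact h2 x hx y hy
  · intro h
    rw [h]
    refine ⟨fun x hx => by simpa using hx, fun x hx y hy => pair_mem_prod.2 ⟨hx, hy⟩⟩

/-- Functions as sets of pairs. -/
theorem isFunc (i j k : α) : Dl.{u} (fun _ s => IsFunc (s i) (s j) (s k)) := by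
  refine ((ball (P := fun _ p s => ∃ x ∈ s i, ∃ y ∈ s j, p = pair x y) k
      (bex (P := fun _ x s => ∃ y ∈ s (some j), s none = pair x y) (some i)
        (bex (P := fun _ y s => s (some none) = pair (s none) y) (some (some j))
          (isPair (some (some none)) (some none) none)))).and
    (ball (P := fun _ x s => ∃ y ∈ s j, pair x y ∈ s k ∧ ∀ y' ∈ s j, pair x y' ∈ s k → y' = y) i
      (bex (P := fun _ y s => pair (s none) y ∈ s (some k) ∧
        ∀ y' ∈ s (some j), pair (s none) y' ∈ s (some k) → y' = y) (some j)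
        ((pairMem (some none) none (some (some k))).and
          (ball (P := fun _ y' s => pair (s (some none)) y' ∈ s (some (some k)) → y' = s none)
            (some (some j))
            ((pairMem (some (some none)) none (some (some (some k)))).imp
              (eq none (some none)))))))).congr fun U _ s _ => ?_
  constructor
  · rintro ⟨h1, h2⟩
    have h1' : s k ⊆ prod (s i) (s j) := fun z hz => mem_prod.2 (h1 z hz)
    refine ⟨h1', fun x hx => ?_⟩
    obtain ⟨y, hy, hxy, h⟩ := h2 x hx
    exact ⟨y, hxy, fun y' hy' => h y' (pair_mem_prod.1 (h1' hy')).2 hy'⟩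
  · rintro ⟨h1, h2⟩
    refine ⟨fun p hp => mem_prod.1 (h1 hp), fun x hx => ?_⟩
    obtain ⟨y, hy, h⟩ := h2 x hx
    exact ⟨y, (pair_mem_prod.1 (h1 hy)).2, hy, fun y' _ hy' => h y' hy'⟩

end Dl

end Pool.Agent.Helper90.Gss
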