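import Pool.Agent.Helper90.Gss.Pack

/-!
# Ordinal predicates preserved by elementary maps
-/

open FirstOrder FirstOrder.Language

universe u

namespace Pool.Agent.Helper90.Gss

open ZFSet Ordinal

/-- The structure `U` computes the levels up to `ζ` correctly and contains `S ζ`. -/
structure Nice (U : ZFSet.{u}) (ζ : Ordinal.{u}) : Prop where
  trans : U.IsTransitive
  limit : Order.IsSuccLimit ζ
  ord_mem : ζ.toZFSet ∈ U
  level_mem : V_ ζ ∈ U
  S_mem : S ζ ∈ U
  isV_iff : ∀ β ≤ ζ, ∀ v ∈ U, (IsV U β.toZFSet v ↔ v = V_ β)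

namespace Nice

variable {U : ZFSet.{u}} {ζ : Ordinal.{u}}

theorem mem_of_mem (h : Nice U ζ) {x : ZFSet.{u}} (hx : x ∈ V_ ζ) : x ∈ U :=
  h.trans.mem_trans hx h.level_mem

theorem ordinal_mem (h : Nice U ζ) {β : Ordinal.{u}} (hβ : β ≤ ζ) : β.toZFSet ∈ U := by
  rcases hβ.eq_or_lt with rfl | hβ
  · exact h.ord_mem
  · exact h.mem_of_mem (toZFSet_mem_vonNeumann.2 hβ)

theorem vonNeumann_mem (h : Nice U ζ) {β : Ordinal.{u}} (hβ : β ≤ ζ) : V_ β ∈ U := by
  rcases hβ.eq_or_lt with rfl | hβ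
  · exact h.level_mem
  · exact h.mem_of_mem (vonNeumann_mem_vonNeumann.2 hβ)

end Nice

theorem nice_vonNeumann {ϑ ζ : Ordinal.{u}} (hζ : Order.IsSuccLimit ζ) (h : ζ < ϑ) :
    Nice (V_ ϑ) ζ where
  trans := isTransitive_vonNeumann ϑ
  limit := hζ
  ord_mem := toZFSet_mem_vonNeumann.2 h
  level_mem := vonNeumann_mem_vonNeumann.2 h
  S_mem := mem_vonNeumann_of_subset S_subset (vonNeumann_mem_vonNeumann.2 h)
  isV_iff := fun _ hβ _ hv => isV_vonNeumann_iff (hβ.trans_lt h) hv

theorem Emb.nice {ϑ ζ : Ordinal.{u}} {M : ZFSet.{u}} {J : ZFSet.{u} → ZFSet.{u}}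
    (E : Emb ϑ M J) (hζ : Order.IsSuccLimit ζ) (hroom : Order.succ (Order.succ ζ) < ϑ)
    (hM : V_ (oMap J ζ) ⊆ M) : Nice M (oMap J ζ) where
  trans := E.trans
  limit := (E.isSuccLimit_oMap_iff
    (((Order.lt_succ _).trans (Order.lt_succ _)).trans hroom)).2 hζ
  ord_mem := E.oMap_mem (((Order.lt_succ _).trans (Order.lt_succ _)).trans hroom)
  level_mem := by
    have hζϑ : ζ < ϑ := ((Order.lt_succ _).trans (Order.lt_succ _)).trans hroom
    rw [← E.map_vonNeumann_of_subset hζϑ hM]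
    exact E.mapsTo (vonNeumann_mem_vonNeumann.2 hζϑ)
  S_mem := by
    have hζϑ : ζ < ϑ := ((Order.lt_succ _).trans (Order.lt_succ _)).trans hroom
    rw [← E.map_S (omega0_le_of_isSuccLimit hζ) hroom hM]
    exact E.mapsTo (mem_vonNeumann_of_subset S_subset (vonNeumann_mem_vonNeumann.2 hζϑ))
  isV_iff := by
    have hζϑ : ζ < ϑ := ((Order.lt_succ _).trans (Order.lt_succ _)).trans hroom
    intro β hβ v hv
    have hβM : β.toZFSet ∈ M := by
      rcases hβ.eq_or_lt with rfl | hβ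
      · exact E.oMap_mem hζϑ
      · exact E.trans.mem_trans (toZFSet_mem_toZFSet_iff.2 hβ) (E.oMap_mem hζϑ)
    have key : ∀ v ∈ M, IsV M β.toZFSet v → v = V_ β := by
      intro v hv h
      ext z
      rw [h.mem_iff E.trans hβM hv z, rank_toZFSet, mem_vonNeumann]
      refine ⟨fun h => h.2, fun h => ⟨hM (mem_vonNeumann.2 (h.trans_le hβ)), h⟩⟩
    constructor
    · exact key v hv
    · rintro rfl
      obtain ⟨v', hv', h'⟩ := E.exists_isV hζϑ hβ
      rw [← key v' hv' h']
      exact h'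

/-- The environment: the parameter `S ζ` followed by ordinals. -/
noncomputable def env {α : Type} (ζ : Ordinal.{u}) (s : α → Ordinal.{u}) :
    Option α → ZFSet.{u} := fun o => o.elim (S ζ) (fun i => (s i).toZFSet)

theorem env_mem {α : Type} {U : ZFSet.{u}} {ζ : Ordinal.{u}} (h : Nice U ζ)
    {s : α → Ordinal.{u}} (hs : ∀ i, s i ≤ ζ) (o : Option α) : env ζ s o ∈ U := by
  cases o with
  | none => exact h.S_mem
  | some i => exact h.ordinal_mem (hs i)

/-- Ordinal predicates which are uniformly definable over nice structures. -/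
def ODl {α : Type} (P : (α → Ordinal.{u}) → Prop) : Prop :=
  ∃ Q : ZFSet.{u} → (Option α → ZFSet.{u}) → Prop, Dl Q ∧
    ∀ (U : ZFSet.{u}) (ζ : Ordinal.{u}), Nice U ζ → ∀ s : α → Ordinal.{u}, (∀ i, s i ≤ ζ) →
      (Q U (env ζ s) ↔ P s)

namespace ODl

variable {α : Type} {P Q : (α → Ordinal.{u}) → Prop}

theorem congr (h : ODl P) (e : ∀ s, P s ↔ Q s) : ODl Q := by
  have : P = Q := funext fun s => propext (e s)
  rwa [← this]

theorem lt (i j : α) : ODl.{u} (fun s => s i < s j) :=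
  ⟨_, Dl.mem (some i) (some j), fun _ _ _ _ _ => toZFSet_mem_toZFSet_iff⟩

theorem eq (i j : α) : ODl.{u} (fun s => s i = s j) :=
  ⟨_, Dl.eq (some i) (some j), fun _ _ _ _ _ => toZFSet_injective.eq_iff⟩

theorem not (h : ODl P) : ODl (fun s => ¬ P s) := by
  obtain ⟨R, hR, h⟩ := h
  exact ⟨_, hR.not, fun U ζ hU s hs => not_congr (h U ζ hU s hs)⟩

theorem and (h : ODl P) (h' : ODl Q) : ODl (fun s => P s ∧ Q s) := by
  obtain ⟨R, hR, h⟩ := h
  obtain ⟨R', hR', h'⟩ := h'
  exact ⟨_, hR.and hR', fun U ζ hU s hs => and_congr (h U ζ hU s hs) (h' U ζ hU s hs)⟩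

theorem imp (h : ODl P) (h' : ODl Q) : ODl (fun s => P s → Q s) := by
  obtain ⟨R, hR, h⟩ := h
  obtain ⟨R', hR', h'⟩ := h'
  exact ⟨_, hR.imp hR', fun U ζ hU s hs => imp_congr (h U ζ hU s hs) (h' U ζ hU s hs)⟩

theorem relabel {β : Type} {R : (β → Ordinal.{u}) → Prop} (g : β → α) (h : ODl R) :
    ODl (fun s : α → Ordinal.{u} => R (fun i => s (g i))) := by
  obtain ⟨R', hR', h⟩ := h
  refine ⟨_, hR'.relabel (fun o : Option β => o.map g), fun U ζ hU s hs => ?_⟩
  refine Iff.trans ?_ (h U ζ hU (fun i => s (g i)) (fun i => hs _))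
  refine iff_of_eq ?_
  congr 1
  funext o
  cases o <;> rfl

theorem ball {P : Ordinal.{u} → (α → Ordinal.{u}) → Prop} (i : α)
    (h : ODl (α := Option α) (fun s => P (s none) (fun i => s (some i)))) :
    ODl (fun s => ∀ x < s i, P x s) := by
  obtain ⟨R, hR, h⟩ := h
  let g : Option (Option α) → Option (Option α) := fun o =>
    match o with
    | none => some none
    | some none => none
    | some (some a) => some (some a)
  let R' : ZFSet.{u} → ZFSet.{u} → (Option α → ZFSet.{u}) → Prop := fun U x s =>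
    R U (fun o => (fun o' : Option (Option α) => o'.elim x s) (g o))
  refine ⟨fun U s => ∀ x ∈ s (some i), R' U x s, ?_, fun U ζ hU s hs => ?_⟩
  · refine Dl.ball (P := R') (some i) ?_
    refine (hR.relabel g).congr fun U _ s _ => ?_
    refine iff_of_eq ?_
    show R U _ = R U _
    congr 1
    funext o
    rcases o with _ | _ | a <;> rfl
  · have key : ∀ x < s i, (R' U x.toZFSet (env ζ s) ↔ P x s) := by
      intro x hx
      refine Iff.trans ?_ (h U ζ hU (fun o => o.elim x s) (by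
        intro o
        cases o with
        | none => exact hx.le.trans (hs i)
        | some a => exact hs a))
      refine iff_of_eq ?_
      show R U _ = R U _
      congr 1
      funext o
      rcases o with _ | _ | a <;> rfl
    constructor
    · intro H x hx
      exact (key x hx).1 (H _ (toZFSet_mem_toZFSet_iff.2 hx))
    · intro H x hx
      obtain ⟨a, ha, rfl⟩ := mem_toZFSet_iff.1 hx
      exact (key a ha).2 (H a ha)

theorem bex {P : Ordinal.{u} → (α → Ordinal.{u}) → Prop} (i : α)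
    (h : ODl (α := Option α) (fun s => P (s none) (fun i => s (some i)))) :
    ODl (fun s => ∃ x < s i, P x s) := by
  have h1 := (ball (P := fun x s => ¬ P x s) i h.not).not
  refine h1.congr fun s => ?_
  push Not
  rfl

theorem limit (i : α) : ODl.{u} (fun s => Order.IsSuccLimit (s i)) :=
  ⟨_, Dl.isLimS (some i), fun _ _ _ _ _ => isLimS_toZFSet⟩

end ODl

/-- Definable ordinal predicates are preserved by elementary maps. -/
theorem Emb.ordTransfer {ϑ ζ : Ordinal.{u}} {M : ZFSet.{u}} {J : ZFSet.{u} → ZFSet.{u}}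
    (E : Emb ϑ M J) (hζ : Order.IsSuccLimit ζ) (hroom : Order.succ (Order.succ ζ) < ϑ)
    (hM : V_ (oMap J ζ) ⊆ M) {α : Type} {P : (α → Ordinal.{u}) → Prop} (hP : ODl P)
    (s : α → Ordinal.{u}) (hs : ∀ i, s i ≤ ζ) : P s ↔ P (fun i => oMap J (s i)) := by
  obtain ⟨R, hR, h⟩ := hP
  have hζϑ : ζ < ϑ := ((Order.lt_succ _).trans (Order.lt_succ _)).trans hroom
  have hn1 := nice_vonNeumann hζ hζϑ
  have hn2 := E.nice hζ hroom hM
  rw [← h _ _ hn1 s hs, ← h _ _ hn2 (fun i => oMap J (s i))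
    (fun i => (E.oMap_le_iff ((hs i).trans_lt hζϑ) hζϑ).2 (hs i)),
    E.transfer hR (env ζ s) (env_mem hn1 hs)]
  refine iff_of_eq ?_
  congr 1
  funext o
  cases o with
  | none => exact E.map_S (omega0_le_of_isSuccLimit hζ) hroom hM
  | some i => exact E.map_toZFSet ((hs i).trans_lt hζϑ)

end Pool.Agent.Helper90.Gss
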