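import Pool.Agent.Helper90.Gss.ElemGraph

/-!
# Elementary maps send `S_ζ` to `S_{J ζ}`
-/

open FirstOrder FirstOrder.Language

universe u

namespace Pool.Agent.Helper90.Gss

open ZFSet Ordinal

namespace Emb

variable {ϑ : Ordinal.{u}} {M : ZFSet.{u}} {J : ZFSet.{u} → ZFSet.{u}}

theorem mem_of_subset {x y : ZFSet.{u}} (h : x ⊆ y) (hy : y ∈ V_ ϑ) : x ∈ V_ ϑ :=
  mem_vonNeumann_of_subset h hy

/-- Elementary maps commute with countable intersections of subsets of a fixed set. -/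
theorem countable_inter (E : Emb ϑ M J) {v : ZFSet.{u}} (X : ℕ → ZFSet.{u})
    (hX : ∀ n, X n ⊆ v) (hroom : Order.succ (Order.succ (max ω (rank v))) < ϑ) (y : ZFSet.{u}) :
    y ∈ J (v.sep (fun x => ∀ n, x ∈ X n)) ↔ y ∈ J v ∧ ∀ n, y ∈ J (X n) := by
  have hωϑ : ω < ϑ := (le_max_left _ _).trans_lt
    (((Order.lt_succ _).trans (Order.lt_succ _)).trans hroom)
  have hv : v ∈ V_ ϑ := by
    rw [mem_vonNeumann]
    exact (le_max_right _ _).trans_lt (((Order.lt_succ _).trans (Order.lt_succ _)).trans hroom)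
  set w : ZFSet.{u} := (ω : Ordinal.{u}).toZFSet with hw
  have hwV : w ∈ V_ ϑ := toZFSet_mem_vonNeumann.2 hωϑ
  set F : ZFSet.{u} := pairSep
    (fun a b => ∃ n : ℕ, a = (n : Ordinal.{u}).toZFSet ∧ b ∈ X n) w v with hF
  set T : ZFSet.{u} := v.sep (fun x => ∀ n, x ∈ X n) with hT
  have hFV : F ∈ V_ ϑ := by
    rw [mem_vonNeumann]
    refine lt_of_le_of_lt ?_ hroom
    have h1 : F ⊆ powerset (powerset (w ∪ v)) := sep_subset
    refine (rank_mono h1).trans ?_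
    rw [rank_powerset, rank_powerset, rank_union, hw, rank_toZFSet]
  have hTV : T ∈ V_ ϑ := mem_of_subset sep_subset hv
  have hXV : ∀ n, X n ∈ V_ ϑ := fun n => mem_of_subset (hX n) hv
  have hnw : ∀ n : ℕ, (n : Ordinal.{u}).toZFSet ∈ w := fun n =>
    toZFSet_mem_toZFSet_iff.2 (natCast_lt_omega0 n)
  have hpF : ∀ (n : ℕ) (x : ZFSet.{u}), x ∈ v →
      (pair (n : Ordinal.{u}).toZFSet x ∈ F ↔ x ∈ X n) := by
    intro n x hx
    rw [hF, mem_pairSep]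
    constructor
    · rintro ⟨a, _, b, _, h1, m, h2, h3⟩
      obtain ⟨rfl, rfl⟩ := pair_injective h1
      have : (n : Ordinal.{u}) = m := toZFSet_injective h2
      have : n = m := by exact_mod_cast this
      rwa [this]
    · intro h
      exact ⟨_, hnw n, x, hx, rfl, n, rfl, h⟩
  -- the two definable facts
  have D1 : Dl.{u} (α := Fin 4) (fun _ s => ∀ x ∈ s 0, (x ∈ s 1 ↔ ∀ n ∈ s 2, pair n x ∈ s 3)) :=
    Dl.ball (P := fun _ x s => (x ∈ s 1 ↔ ∀ n ∈ s 2, pair n x ∈ s 3)) 0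
      ((Dl.mem none (some 1)).iff
        (Dl.ball (P := fun _ n s => pair n (s none) ∈ s (some 3)) (some 2)
          (Dl.pairMem none (some none) (some (some 3)))))
  have D2 : Dl.{u} (α := Fin 4) (fun _ s => ∀ x ∈ s 0, (x ∈ s 1 ↔ pair (s 2) x ∈ s 3)) :=
    Dl.ball (P := fun _ x s => (x ∈ s 1 ↔ pair (s 2) x ∈ s 3)) 0
      ((Dl.mem none (some 1)).iff (Dl.pairMem (some 2) none (some 3)))
  have h1 : ∀ x ∈ J v, (x ∈ J T ↔ ∀ n ∈ J w, pair n x ∈ J F) := by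
    refine (E.transfer D1 ![v, T, w, F] ?_).1 ?_
    · simp only [Fin.forall_fin_succ]
      simpa using ⟨hv, hTV, hwV, hFV⟩
    · show ∀ x ∈ v, (x ∈ T ↔ ∀ n ∈ w, pair n x ∈ F)
      intro x hx
      rw [hT, mem_sep]
      constructor
      · rintro ⟨_, h⟩ n hn
        obtain ⟨a, ha, rfl⟩ := mem_toZFSet_iff.1 hn
        obtain ⟨k, rfl⟩ := lt_omega0.1 ha
        exact (hpF k x hx).2 (h k)
      · intro h
        exact ⟨hx, fun n => (hpF n x hx).1 (h _ (hnw n))⟩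
  have h2 : ∀ n : ℕ, ∀ x ∈ J v, (x ∈ J (X n) ↔ pair (n : Ordinal.{u}).toZFSet x ∈ J F) := by
    intro n
    have hnϑ : (n : Ordinal.{u}) < ϑ := (natCast_lt_omega0 n).trans hωϑ
    have hJn : J (n : Ordinal.{u}).toZFSet = (n : Ordinal.{u}).toZFSet := by
      rw [E.map_toZFSet hnϑ, E.oMap_natCast n hnϑ]
    have h3 : ∀ x ∈ J v, (x ∈ J (X n) ↔ pair (J (n : Ordinal.{u}).toZFSet) x ∈ J F) := by
      refine (E.transfer D2 ![v, X n, (n : Ordinal.{u}).toZFSet, F] ?_).1 ?_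
      · simp only [Fin.forall_fin_succ]
        simpa using ⟨hv, hXV n, toZFSet_mem_vonNeumann.2 hnϑ, hFV⟩
      · show ∀ x ∈ v, (x ∈ X n ↔ pair (n : Ordinal.{u}).toZFSet x ∈ F)
        intro x hx
        exact (hpF n x hx).symm
    rw [hJn] at h3
    exact h3
  have hJw : J w = w := by
    rw [hw, E.map_toZFSet hωϑ, E.oMap_omega hωϑ]
  have hJT : J T ⊆ J v := (E.subset_iff hTV hv).2 sep_subset
  constructor
  · intro hy
    have hyv : y ∈ J v := hJT hy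
    refine ⟨hyv, fun n => ?_⟩
    rw [h2 n y hyv]
    refine (h1 y hyv).1 hy _ ?_
    rw [hJw]
    exact hnw n
  · rintro ⟨hyv, hy⟩
    rw [h1 y hyv]
    intro n hn
    rw [hJw] at hn
    obtain ⟨a, ha, rfl⟩ := mem_toZFSet_iff.1 hn
    obtain ⟨k, rfl⟩ := lt_omega0.1 ha
    exact (h2 k y hyv).1 (hy k)

theorem map_Sφ (E : Emb ϑ M J) {ζ : Ordinal.{u}} (hζ : ζ < ϑ) (hM : V_ (oMap J ζ) ⊆ M)
    (n : ℕ) (φ : LSet.Formula (Fin n)) : J (Sφ n φ ζ) = Sφ n φ (oMap J ζ) := by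
  have hV : J (V_ ζ) = V_ (oMap J ζ) := E.map_vonNeumann_of_subset hζ hM
  have hVϑ : V_ ζ ∈ V_ ϑ := vonNeumann_mem_vonNeumann.2 hζ
  have hSϑ : Sφ n φ ζ ∈ V_ ϑ := mem_of_subset Sφ_subset hVϑ
  have h1 := (E.transfer (Dl.isSφ n φ (0 : Fin 2) 1) ![V_ ζ, Sφ n φ ζ]
    (by simp only [Fin.forall_fin_two]; exact ⟨hVϑ, hSϑ⟩)).1 (by
      show ∀ p ∈ V_ ζ, p ∈ Sφ n φ ζ ↔ ∃ A B G, p = code A B G ∧ IsElemGφ n φ A B G
      intro p hp
      rw [Sφ, mem_sep]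
      exact ⟨fun h => h.2, fun h => ⟨hp, h⟩⟩)
  have h2 : ∀ p ∈ J (V_ ζ), p ∈ J (Sφ n φ ζ) ↔
      ∃ A B G, p = code A B G ∧ IsElemGφ n φ A B G := h1
  rw [hV] at h2
  have h3 : J (Sφ n φ ζ) ⊆ V_ (oMap J ζ) := by
    rw [← hV]
    exact (E.subset_iff hSϑ hVϑ).2 Sφ_subset
  ext p
  constructor
  · intro hp
    exact mem_sep.2 ⟨h3 hp, (h2 p (h3 hp)).1 hp⟩
  · intro hp
    obtain ⟨hp, h⟩ := mem_sep.1 hp
    exact (h2 p hp).2 h

/-- The key lemma: `J (S_ζ) = S_{J ζ}`, although being elementary is not obviously first-order. -/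
theorem map_S (E : Emb ϑ M J) {ζ : Ordinal.{u}} (hω : ω ≤ ζ)
    (hroom : Order.succ (Order.succ ζ) < ϑ) (hM : V_ (oMap J ζ) ⊆ M) :
    J (S ζ) = S (oMap J ζ) := by
  have hζ : ζ < ϑ := ((Order.lt_succ _).trans (Order.lt_succ _)).trans hroom
  have hV : J (V_ ζ) = V_ (oMap J ζ) := E.map_vonNeumann_of_subset hζ hM
  obtain ⟨e, he⟩ := exists_surjective_nat (Σ n, LSet.Formula (Fin n))
  have h1 : S ζ = (V_ ζ).sep (fun x => ∀ k, x ∈ Sφ (e k).1 (e k).2 ζ) := by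
    ext p
    rw [mem_S_iff, mem_sep]
    refine and_congr_right fun _ => ⟨fun h k => h _ _, fun h n φ => ?_⟩
    obtain ⟨k, hk⟩ := he ⟨n, φ⟩
    have := h k
    rw [hk] at this
    exact this
  ext p
  rw [h1, E.countable_inter (fun k => Sφ (e k).1 (e k).2 ζ) (fun k => Sφ_subset)
    (by rw [rank_vonNeumann, max_eq_right hω]; exact hroom), hV, mem_S_iff]
  refine and_congr_right fun _ => ⟨fun h n φ => ?_, fun h k => ?_⟩
  · obtain ⟨k, hk⟩ := he ⟨n, φ⟩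
    have := h k
    rw [E.map_Sφ hζ hM, hk] at this
    exact this
  · rw [E.map_Sφ hζ hM]
    exact h _ _

end Emb

end Pool.Agent.Helper90.Gss
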