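import Pool.Agent.Helper90.Gss.Rel

/-!
# The ordinal predicates used in the main argument, and basic lemmas
-/

open FirstOrder FirstOrder.Language

universe u

namespace Pool.Agent.Helper90.Gss

open ZFSet Ordinal

/-- Some embedding below `Z` with domain `V_{θ+1}` sends `κ` above `l`. -/
def Qr (Z κ θ l : Ordinal.{u}) : Prop := ∃ τ < Z, l < τ ∧ ER Z κ θ τ τ

/-- `O` reflects the existence of embeddings found below `Z`. -/
def Corr (O Z : Ordinal.{u}) : Prop := ∀ κ < O, ∀ θ < O, ∀ l < O, Qr Z κ θ l → Qr O κ θ l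

/-- Bounded version of the largeness property of `a`, relative to `V_Z`. -/
def Pb (Z b a : Ordinal.{u}) : Prop :=
  ∀ θ < b, Order.IsSuccLimit θ → a < θ → ∀ l < b, Qr Z a θ l

/-- The largeness property of `a`, relative to `V_Z`. -/
def Pz (Z a : Ordinal.{u}) : Prop := Pb Z Z a

/-- There are good pairs between `β` and `Z`. -/
def G2 (β Z : Ordinal.{u}) : Prop :=
  ∃ O1 < Z, ∃ O0 < O1, β < O0 ∧ (O0 < O1 ∧ IsIna O0) ∧ (O1 < Z ∧ IsIna O1) ∧ Corr O0 O1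

/-- No targets in `(m, o]` for ordinals below `m`. -/
def NoTar (Z m o : Ordinal.{u}) : Prop :=
  ∀ τ < Z, m < τ → ¬ o < τ → ∀ α < m, ∀ θ < Z, ¬ ER Z α θ τ m

/-- `a` is the least large ordinal of `V_Z`. -/
def IsF (Z a : Ordinal.{u}) : Prop := a < Z ∧ Pz Z a ∧ ∀ a' < a, ¬ Pz Z a'

namespace ODl

variable {α : Type}

theorem qr (Z κ θ l : α) : ODl.{u} (fun s => Qr (s Z) (s κ) (s θ) (s l)) :=
  bex (P := fun τ s => s l < τ ∧ ER (s Z) (s κ) (s θ) τ τ) Z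
    ((lt (some l) none).and (er (some Z) (some κ) (some θ) none none))

theorem corr (O Z : α) : ODl.{u} (fun s => Corr (s O) (s Z)) :=
  ball (P := fun κ s => ∀ θ < s O, ∀ l < s O, Qr (s Z) κ θ l → Qr (s O) κ θ l) O
    (ball (P := fun θ s => ∀ l < s (some O), Qr (s (some Z)) (s none) θ l →
        Qr (s (some O)) (s none) θ l) (some O)
      (ball (P := fun l s => Qr (s (some (some Z))) (s (some none)) (s none) l →
        Qr (s (some (some O))) (s (some none)) (s none) l) (some (some O))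
        ((qr _ _ _ _).imp (qr _ _ _ _))))

theorem pb (Z b a : α) : ODl.{u} (fun s => Pb (s Z) (s b) (s a)) :=
  ball (P := fun θ s => Order.IsSuccLimit θ → s a < θ → ∀ l < s b, Qr (s Z) (s a) θ l) b
    ((limit none).imp ((lt (some a) none).imp
      (ball (P := fun l s => Qr (s (some Z)) (s (some a)) (s none) l) (some b) (qr _ _ _ _))))

theorem pz (Z a : α) : ODl.{u} (fun s => Pz (s Z) (s a)) := pb Z Z a

theorem g2 (β Z : α) : ODl.{u} (fun s => G2 (s β) (s Z)) :=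
  bex (P := fun O1 s => ∃ O0 < O1, s β < O0 ∧ (O0 < O1 ∧ IsIna O0) ∧ (O1 < s Z ∧ IsIna O1) ∧
    Corr O0 O1) Z
    (bex (P := fun O0 s => s (some β) < O0 ∧ (O0 < s none ∧ IsIna O0) ∧
      (s none < s (some Z) ∧ IsIna (s none)) ∧ Corr O0 (s none)) none
      ((lt (some (some β)) none).and ((ina (some none) none).and
        ((ina (some (some Z)) (some none)).and (corr none (some none))))))

theorem noTar (Z m o : α) : ODl.{u} (fun s => NoTar (s Z) (s m) (s o)) :=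
  ball (P := fun τ s => s m < τ → ¬ s o < τ → ∀ α < s m, ∀ θ < s Z, ¬ ER (s Z) α θ τ (s m)) Z
    ((lt (some m) none).imp ((lt (some o) none).not.imp
      (ball (P := fun a s => ∀ θ < s (some Z), ¬ ER (s (some Z)) a θ (s none) (s (some m)))
        (some m)
        (ball (P := fun θ s => ¬ ER (s (some (some Z))) (s none) θ (s (some none))
          (s (some (some m)))) (some (some Z)) (er _ _ _ _ _).not))))

theorem isF (Z a : α) : ODl.{u} (fun s => IsF (s Z) (s a)) :=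
  (lt a Z).and ((pz Z a).and
    (ball (P := fun a' s => ¬ Pz (s Z) a') a (pz _ _).not))

end ODl

theorem ER.mono {ζ ζ' α θ τ m m' : Ordinal.{u}} (h : ER ζ α θ τ m) (hζ : ζ ≤ ζ') (hm : m ≤ m') :
    ER ζ' α θ τ m' := by
  obtain ⟨h1, h2, h3, N, hN, j, E, hj, hτ, hβ⟩ := h
  exact ⟨h1, h2, h3.trans_le hζ, N, vonNeumann_subset_of_le hζ hN, j, E, hj, hτ,
    fun β h => (hβ β h).trans_le hm⟩

theorem Qr.mono {Z Z' κ θ l : Ordinal.{u}} (h : Qr Z κ θ l) (hZ : Z ≤ Z') : Qr Z' κ θ l := by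
  obtain ⟨τ, hτ, hl, h⟩ := h
  exact ⟨τ, hτ.trans_le hZ, hl, h.mono hZ le_rfl⟩

theorem Pb.mono {Z Z' b b' a : Ordinal.{u}} (h : Pb Z b a) (hZ : Z ≤ Z') (hb : b' ≤ b) :
    Pb Z' b' a :=
  fun θ hθ h1 h2 l hl => (h θ (hθ.trans_le hb) h1 h2 l (hl.trans_le hb)).mono hZ

theorem G2.mono {β Z Z' : Ordinal.{u}} (h : G2 β Z) (hZ : Z ≤ Z') : G2 β Z' := by
  obtain ⟨O1, h1, O0, h2, h3, h4, h5, h6⟩ := h
  exact ⟨O1, h1.trans_le hZ, O0, h2, h3, h4, ⟨h1.trans_le hZ, h5.2⟩, h6⟩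

/-- Restricting a witness. -/
theorem Emb.restrict_ER {Ω θ κ α θ' : Ordinal.{u}} {N : ZFSet.{u}} {j : ZFSet.{u} → ZFSet.{u}}
    (E : Emb (Order.succ θ) N j) (hN : N ∈ V_ Ω) (hκθ : κ < θ)
    (hV : V_ (oMap j κ) ⊆ N) (hθ'l : Order.IsSuccLimit θ') (hθ' : θ' < θ) (hθΩ : θ < Ω)
    (hακ : α ≤ κ) (hαθ' : α < θ') : ER Ω α θ' (oMap j α) (oMap j α) := by
  have h1 : Order.succ θ' < Order.succ θ := Order.succ_lt_succ hθ'
  have hαϑ : α < Order.succ θ := (hαθ'.trans hθ').trans (Order.lt_succ θ)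
  have hκϑ : κ < Order.succ θ := hκθ.trans (Order.lt_succ θ)
  have hNt : (V_ Ω).IsTransitive := isTransitive_vonNeumann Ω
  refine ⟨hθ'l, hαθ', hθ'.trans hθΩ, j (V_ (Order.succ θ')),
    hNt.mem_trans (E.mapsTo (vonNeumann_mem_vonNeumann.2 h1)) hN, j, E.restrict h1, rfl, ?_, ?_⟩
  · intro z hz
    rw [mem_vonNeumann] at hz
    rw [E.mem_map_vonNeumann h1]
    refine ⟨hV (mem_vonNeumann.2 (hz.trans_le ((E.oMap_le_iff hαϑ hκϑ).2 hακ))), hz.trans ?_⟩
    exact (E.oMap_lt_iff hαϑ h1).2 (hαθ'.trans (Order.lt_succ θ'))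
  · intro β hβ
    exact (E.oMap_lt_iff (hβ.trans hαϑ) hαϑ).2 hβ

namespace IsIna

variable {Ω : Ordinal.{u}}

theorem isSuccLimit (h : IsIna Ω) : Order.IsSuccLimit Ω := by
  have h0 : 0 < Ω := omega0_pos.trans h.1
  refine isLimS_toZFSet.1 ⟨?_, ?_⟩
  · intro he
    rw [← toZFSet_zero] at he
    exact h0.ne' (toZFSet_injective he)
  · intro y hy
    obtain ⟨β, hβ, rfl⟩ := mem_toZFSet_iff.1 hy
    obtain ⟨γ, hγ, hγ'⟩ := h.2 {∅} (by
      rw [mem_vonNeumann, rank_singleton, rank_empty]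
      exact (Order.succ_le_of_lt omega0_pos).trans_lt h.1) (fun _ => β) (fun _ _ => hβ)
    exact ⟨γ.toZFSet, toZFSet_mem_toZFSet_iff.2 hγ, toZFSet_mem_toZFSet_iff.2
      (hγ' ∅ (by simp))⟩

theorem bound_ord (h : IsIna Ω) {κ : Ordinal.{u}} (hκ : κ < Ω) (f : Ordinal.{u} → Ordinal.{u})
    (hf : ∀ a < κ, f a < Ω) : ∃ β < Ω, ∀ a < κ, f a < β := by
  obtain ⟨β, hβ, H⟩ := h.2 κ.toZFSet (toZFSet_mem_vonNeumann.2 hκ) (fun x => f (rank x)) (by
    intro x hx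
    obtain ⟨a, ha, rfl⟩ := mem_toZFSet_iff.1 hx
    rw [rank_toZFSet]
    exact hf a ha)
  refine ⟨β, hβ, fun a ha => ?_⟩
  have := H _ (toZFSet_mem_toZFSet_iff.2 ha)
  rwa [rank_toZFSet] at this

theorem add_omega_lt (h : IsIna Ω) {x : Ordinal.{u}} (hx : x < Ω) : x + ω < Ω := by
  obtain ⟨β, hβ, H⟩ := h.bound_ord h.1 (fun n => x + n) (by
    intro a ha
    obtain ⟨n, rfl⟩ := lt_omega0.1 ha
    induction n with
    | zero => simpa using hx
    | succ n ih =>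
      have := h.isSuccLimit.succ_lt (ih (natCast_lt_omega0 n))
      rw [Nat.cast_succ, ← add_assoc]
      exact this)
  refine lt_of_le_of_lt ?_ hβ
  rw [(isNormal_add_right x).le_iff_forall_le isSuccLimit_omega0]
  intro b hb
  exact (H b hb).le

theorem exists_limit (h : IsIna Ω) {x : Ordinal.{u}} (hx : x < Ω) :
    ∃ θ < Ω, Order.IsSuccLimit θ ∧ x < θ :=
  ⟨x + ω, h.add_omega_lt hx, isSuccLimit_add x isSuccLimit_omega0,
    lt_add_of_pos_right x omega0_pos⟩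

theorem powerset_mem (h : IsIna Ω) {x : ZFSet.{u}} (hx : x ∈ V_ Ω) : powerset x ∈ V_ Ω := by
  rw [mem_vonNeumann, rank_powerset]
  exact h.isSuccLimit.succ_lt (mem_vonNeumann.1 hx)

theorem funs_mem (h : IsIna Ω) {x y : ZFSet.{u}} (hx : x ∈ V_ Ω) (hy : y ∈ V_ Ω) :
    funs x y ∈ V_ Ω := by
  refine mem_vonNeumann_of_subset ?_ (h.powerset_mem (prod_mem_vonNeumann h.isSuccLimit hx hy))
  unfold funs
  exact sep_subset

end IsIna

end Pool.Agent.Helper90.Gss
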