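import Pool.Agent.Helper90.Gss.Preds

/-!
# The least large ordinal, when regular, is moved by embeddings mapping it into itself
-/

open FirstOrder FirstOrder.Language

universe u

namespace Pool.Agent.Helper90.Gss

open ZFSet Ordinal

/-- A witness: an embedding into `N ∈ V_Ω` following `e` below `κ`, sending `κ` to `τ`. -/
structure Wit (Ω κ θ τ : Ordinal.{u}) (e : Ordinal.{u} → Ordinal.{u}) (N : ZFSet.{u})
    (j : ZFSet.{u} → ZFSet.{u}) : Prop where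
  emb : Emb (Order.succ θ) N j
  mem : N ∈ V_ Ω
  map : oMap j κ = τ
  sub : V_ τ ⊆ N
  agree : ∀ α < κ, oMap j α = e α

/-- The data obtained by pigeonhole: unboundedly many witnesses agreeing below `κ`. -/
structure Data (Ω κ θ lam : Ordinal.{u}) (e : Ordinal.{u} → Ordinal.{u}) : Prop where
  ina : IsIna Ω
  lt : κ < Ω
  θlt : θ < Ω
  θlim : Order.IsSuccLimit θ
  κθ : κ < θ
  lamlt : lam < Ω
  bound : ∀ α < κ, e α < lam
  wit : ∀ l < Ω, ∃ τ, l < τ ∧ τ < Ω ∧ ∃ N j, Wit Ω κ θ τ e N j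

theorem exists_data {Ω κ : Ordinal.{u}} (hΩ : IsIna Ω) (hκ : κ < Ω) (hP : Pz Ω κ)
    (hmin : ∀ α < κ, ¬ Pz Ω α) : ∃ θ lam e, Data Ω κ θ lam e := by
  -- failure witnesses below `κ`
  have h1 : ∀ α < κ, ∃ θ < Ω, Order.IsSuccLimit θ ∧ α < θ ∧ ∃ l < Ω, ¬ Qr Ω α θ l := by
    intro α hα
    have := hmin α hα
    unfold Pz Pb at this
    push Not at this
    obtain ⟨θ, h1, h2, h3, l, h4, h5⟩ := this
    exact ⟨θ, h1, h2, h3, l, h4, h5⟩
  choose! tf htf using h1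
  have h2 : ∀ α < κ, ∃ l < Ω, ¬ Qr Ω α (tf α) l := fun α hα => (htf α hα).2.2.2
  choose! lf hlf using h2
  obtain ⟨β1, hβ1, Hβ1⟩ := hΩ.bound_ord hκ tf (fun α hα => (htf α hα).1)
  obtain ⟨lam, hlam, Hlam⟩ := hΩ.bound_ord hκ lf (fun α hα => (hlf α hα).1)
  obtain ⟨θ, hθΩ, hθl, hθ⟩ := hΩ.exists_limit (max_lt hβ1 hκ)
  have hκθ : κ < θ := (le_max_right _ _).trans_lt hθ
  have hβθ : β1 < θ := (le_max_left _ _).trans_lt hθ
  -- bounding values below `κ`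
  have hb : ∀ (N : ZFSet.{u}) (j : ZFSet.{u} → ZFSet.{u}), Emb (Order.succ θ) N j → N ∈ V_ Ω →
      V_ (oMap j κ) ⊆ N → ∀ α < κ, oMap j α < lam := by
    intro N j E hN hV α hα
    have h3 := E.restrict_ER hN hκθ hV (htf α hα).2.1 ((Hβ1 α hα).trans hβθ) hθΩ hα.le
      (htf α hα).2.2.1
    have hτ : oMap j α < Ω := by
      have h5 : (oMap j α).toZFSet ∈ N :=
        E.oMap_mem ((hα.trans hκθ).trans (Order.lt_succ θ))
      exact toZFSet_mem_vonNeumann.1 ((isTransitive_vonNeumann Ω).mem_trans h5 hN)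
    have h4 : ¬ lf α < oMap j α := fun h => (hlf α hα).2 ⟨_, hτ, h, h3⟩
    exact (not_lt.1 h4).trans_lt (Hlam α hα)
  -- pigeonhole
  have h6 : ∃ e : Ordinal.{u} → Ordinal.{u}, ∀ l < Ω, ∃ τ, l < τ ∧ τ < Ω ∧ ∃ N j,
      Wit Ω κ θ τ e N j := by
    by_contra hcon
    push Not at hcon
    choose g hg hg' using hcon
    have hfuns : funs κ.toZFSet lam.toZFSet ∈ V_ Ω :=
      hΩ.funs_mem (toZFSet_mem_vonNeumann.2 hκ) (toZFSet_mem_vonNeumann.2 hlam)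
    obtain ⟨β, hβ, H⟩ := hΩ.2 _ hfuns (fun G => g (fun α => rank (app G α.toZFSet)))
      (fun G _ => hg _)
    obtain ⟨τ, hτΩ, hβτ, _, _, _, N, hN, j, E, hj, hV, _⟩ := hP θ hθΩ hθl hκθ β hβ
    have hV' : V_ (oMap j κ) ⊆ N := by rw [hj]; exact hV
    have hbj := hb N j E hN hV'
    have hval : ∀ x ∈ κ.toZFSet, (fun x => (oMap j (rank x)).toZFSet) x ∈ lam.toZFSet := by
      intro x hx
      obtain ⟨a, ha, rfl⟩ := mem_toZFSet_iff.1 hx
      simp only [rank_toZFSet]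
      exact toZFSet_mem_toZFSet_iff.2 (hbj a ha)
    set G := graphOn κ.toZFSet (fun x => (oMap j (rank x)).toZFSet) with hG
    have hGf : IsFunc κ.toZFSet lam.toZFSet G := isFunc_graphOn hval
    have hGm : G ∈ funs κ.toZFSet lam.toZFSet := mem_funs.2 hGf
    have hlt := (H G hGm).trans hβτ
    refine hg' _ τ hlt hτΩ N j ⟨E, hN, hj, hV, fun α hα => ?_⟩
    rw [hG, app_graphOn hval (toZFSet_mem_toZFSet_iff.2 hα), rank_toZFSet, rank_toZFSet]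
  obtain ⟨e, he⟩ := h6
  refine ⟨θ, lam, e, hΩ, hκ, hθΩ, hθl, hκθ, hlam, fun α hα => ?_, he⟩
  obtain ⟨τ, _, _, N, j, hw⟩ := he lam hlam
  rw [← hw.agree α hα]
  exact hb N j hw.emb hw.mem (by rw [hw.map]; exact hw.sub) α hα

namespace Wit

variable {Ω κ θ τ : Ordinal.{u}} {e : Ordinal.{u} → Ordinal.{u}} {N : ZFSet.{u}}
  {j : ZFSet.{u} → ZFSet.{u}}

theorem transfer (w : Wit Ω κ θ τ e N j) (hκl : Order.IsSuccLimit κ) (hθl : Order.IsSuccLimit θ)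
    (hκθ : κ < θ) {α : Type} {P : (α → Ordinal.{u}) → Prop} (hP : ODl P)
    (s : α → Ordinal.{u}) (hs : ∀ i, s i ≤ κ) : P s ↔ P (fun i => oMap j (s i)) :=
  w.emb.ordTransfer hκl ((hθl.succ_lt (hθl.succ_lt hκθ)).trans (Order.lt_succ θ))
    (by rw [w.map]; exact w.sub) hP s hs

end Wit

/-- Regularity of an ordinal, formulated with functions on ordinals. -/
def Reg (κ : Ordinal.{u}) : Prop :=
  ∀ ρ < κ, ∀ f : Ordinal.{u} → Ordinal.{u}, (∀ a < ρ, f a < κ) → ∃ β < κ, ∀ a < ρ, f a < β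

theorem Pz.omega_le {Ω κ : Ordinal.{u}} (hΩ : IsIna Ω) (hP : Pz Ω κ) : ω ≤ κ := by
  by_contra h
  rw [not_le] at h
  obtain ⟨n, rfl⟩ := lt_omega0.1 h
  obtain ⟨θ, hθΩ, hθl, hθ⟩ := hΩ.exists_limit (h.trans hΩ.1)
  obtain ⟨τ, _, hτ, _, _, _, N, _, j, E, hj, _⟩ := hP θ hθΩ hθl hθ n (h.trans hΩ.1)
  rw [E.oMap_natCast n (hθ.trans (Order.lt_succ θ))] at hj
  exact absurd hτ (by rw [← hj]; exact lt_irrefl _)

/-- If the least large ordinal `κ` of `V_Ω` is regular, then arbitrarily high targets of `κ` come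
from embeddings mapping `κ` into itself. -/
theorem targets_of_regular {Ω κ : Ordinal.{u}} (hΩ : IsIna Ω) (hκ : κ < Ω) (hP : Pz Ω κ)
    (hmin : ∀ α < κ, ¬ Pz Ω α) (hreg : Reg κ) :
    ∀ l < Ω, ∃ τ, l < τ ∧ τ < Ω ∧ ∃ θ, ER Ω κ θ τ κ := by
  obtain ⟨θ, lam, e, D⟩ := exists_data hΩ hκ hP hmin
  have hωκ : ω ≤ κ := hP.omega_le hΩ
  -- `κ` is a limit ordinal
  have hκl : Order.IsSuccLimit κ := by
    refine isLimS_toZFSet.1 ⟨?_, ?_⟩
    · intro he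
      rw [← toZFSet_zero] at he
      exact (omega0_pos.trans_le hωκ).ne' (toZFSet_injective he)
    · intro y hy
      obtain ⟨β, hβ, rfl⟩ := mem_toZFSet_iff.1 hy
      obtain ⟨γ, hγ, hγ'⟩ := hreg (Order.succ 0)
        ((isSuccLimit_omega0.succ_lt omega0_pos).trans_le hωκ) (fun _ => β) (fun _ _ => hβ)
      exact ⟨γ.toZFSet, toZFSet_mem_toZFSet_iff.2 hγ, toZFSet_mem_toZFSet_iff.2
        (hγ' 0 (Order.lt_succ 0))⟩
  have hΩl := hΩ.isSuccLimit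
  -- (i)
  have hi : ∀ a < κ, Pz κ a → Pz Ω (e a) := by
    intro a ha hPa θ' hθ' hl' haθ' l hl
    obtain ⟨τ, hτ, hτΩ, N, j, w⟩ := D.wit (max θ' l) (max_lt hθ' hl)
    have h1 := (w.transfer hκl D.θlim D.κθ (ODl.pz (0 : Fin 2) 1) ![κ, a]
      (by simp [Fin.forall_fin_two, ha.le])).1 hPa
    have h2 : Pz (oMap j κ) (oMap j a) := h1
    rw [w.map, w.agree a ha] at h2
    exact (h2 θ' ((le_max_left _ _).trans_lt hτ) hl' haθ' l
      ((le_max_right _ _).trans_lt hτ)).mono hτΩ.le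
  -- (ii)
  have hii : ∀ b < Ω, ∃ Z0 < Ω, ∀ Z, Z0 ≤ Z → Pb Z b κ := by
    intro b hb
    have h1 : ∀ θ' < b, Order.IsSuccLimit θ' → κ < θ' → ∀ l < b, ∃ Z < Ω, Qr Z κ θ' l := by
      intro θ' hθ' hl' hκ' l hl
      obtain ⟨τ, hτ, hlτ, h3, h4, h5, N, hN, j, E, hj, hV, hm⟩ :=
        hP θ' (hθ'.trans hb) hl' hκ' l (hl.trans hb)
      have hNr := mem_vonNeumann.1 hN
      refine ⟨Order.succ (max (max θ' τ) (rank N)), hΩl.succ_lt (max_lt (max_lt h5 hτ) hNr), τ,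
        Order.lt_succ_of_le ((le_max_right _ _).trans (le_max_left _ _)), hlτ, h3, h4,
        Order.lt_succ_of_le ((le_max_left _ _).trans (le_max_left _ _)), N,
        mem_vonNeumann.2 (Order.lt_succ_of_le (le_max_right _ _)), j, E, hj, hV, hm⟩
    choose! zf hzf using h1
    have h2 : ∀ θ' < b, ∃ Z < Ω, Order.IsSuccLimit θ' → κ < θ' → ∀ l < b, Qr Z κ θ' l := by
      intro θ' hθ'
      by_cases hc : Order.IsSuccLimit θ' ∧ κ < θ'
      · obtain ⟨β, hβ, H⟩ := hΩ.bound_ord hb (zf θ') (fun l hl => (hzf θ' hθ' hc.1 hc.2 l hl).1)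
        exact ⟨β, hβ, fun h1 h2 l hl => (hzf θ' hθ' h1 h2 l hl).2.mono (H l hl).le⟩
      · exact ⟨0, omega0_pos.trans hΩ.1, fun h1 h2 => absurd ⟨h1, h2⟩ hc⟩
    choose! zg hzg using h2
    obtain ⟨β, hβ, H⟩ := hΩ.bound_ord hb zg (fun θ' hθ' => (hzg θ' hθ').1)
    exact ⟨β, hβ, fun Z hZ θ' hθ' h1 h2 l hl =>
      ((hzg θ' hθ').2 h1 h2 l hl).mono ((H θ' hθ').le.trans hZ)⟩
  -- (iii)
  have hiii : ∀ ρ < κ, (∀ a < ρ, ¬ Pz κ a) → ¬ κ < e ρ := by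
    intro ρ hρ hn hκe
    have h1 : ∀ a < ρ, ∃ b < κ, ¬ Pb κ b a := by
      intro a ha
      have := hn a ha
      unfold Pz Pb at this
      push Not at this
      obtain ⟨θ', h1, h2, h3, l, h4, h5⟩ := this
      refine ⟨Order.succ (max θ' l), hκl.succ_lt (max_lt h1 h4), fun H => h5 ?_⟩
      exact H θ' (Order.lt_succ_of_le (le_max_left _ _)) h2 h3 l
        (Order.lt_succ_of_le (le_max_right _ _))
    choose! bf hbf using h1
    obtain ⟨b, hb, Hb⟩ := hreg ρ hρ bf (fun a ha => (hbf a ha).1)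
    have h2 : ∀ a < ρ, ¬ Pb κ b a := fun a ha H => (hbf a ha).2 (H.mono le_rfl (Hb a ha).le)
    have hD : ODl.{u} (α := Fin 3) (fun s => ∀ a < s 2, ¬ Pb (s 0) (s 1) a) :=
      ODl.ball (P := fun a s => ¬ Pb (s 0) (s 1) a) 2 (ODl.pb _ _ _).not
    obtain ⟨Z0, hZ0, HZ0⟩ := hii (e b) ((D.bound b hb).trans D.lamlt)
    obtain ⟨τ, hτ, hτΩ, N, j, w⟩ := D.wit Z0 hZ0
    have h3 := (w.transfer hκl D.θlim D.κθ hD ![κ, b, ρ]
      (by simp [Fin.forall_fin_succ, hb.le, hρ.le])).1 h2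
    have h4 : ∀ a < oMap j ρ, ¬ Pb (oMap j κ) (oMap j b) a := h3
    rw [w.map, w.agree ρ hρ, w.agree b hb] at h4
    exact h4 κ hκe (HZ0 τ hτ.le)
  -- there is no `a < κ` with `Pz κ a`
  have hiv : ∀ a < κ, ¬ Pz κ a := by
    intro a0 ha0 hPa0
    obtain ⟨κ', ⟨hκ'κ, hPκ'⟩, hκ'min⟩ := WellFounded.has_min Ordinal.lt_wf
      {a | a < κ ∧ Pz κ a} ⟨a0, ha0, hPa0⟩
    have hmin' : ∀ a < κ', ¬ Pz κ a := fun a ha h => hκ'min a ⟨ha.trans hκ'κ, h⟩ ha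
    have h1 : e κ' ≤ κ := not_lt.1 (hiii κ' hκ'κ hmin')
    have h2 : κ ≤ e κ' := by
      by_contra h
      rw [not_le] at h
      exact hmin _ h (hi κ' hκ'κ hPκ')
    have h3 : e κ' = κ := le_antisymm h1 h2
    obtain ⟨a, ⟨haκ, haF⟩, hamin⟩ := WellFounded.has_min Ordinal.lt_wf
      {a | a < κ ∧ IsF (e a) a} ⟨κ', hκ'κ, by
        rw [h3]
        exact ⟨hκ'κ, hPκ', hmin'⟩⟩
    obtain ⟨τ, hτ, hτΩ, N, j, w⟩ := D.wit 0 (omega0_pos.trans hΩ.1)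
    have hD : ODl.{u} (α := Fin 1) (fun s => ∃ b < s 0, Pz (s 0) b) :=
      ODl.bex (P := fun b s => Pz (s 0) b) 0 (ODl.pz _ _)
    have h4 : ∃ b < a, Pz a b := by
      refine (w.transfer hκl D.θlim D.κθ hD ![a] (by simp [haκ.le])).2 ?_
      show ∃ b < oMap j a, Pz (oMap j a) b
      rw [w.agree a haκ]
      exact ⟨a, haF.1, haF.2.1⟩
    obtain ⟨b0, hb0, hPb0⟩ := h4
    obtain ⟨b, ⟨hba, hPb⟩, hbmin⟩ := WellFounded.has_min Ordinal.lt_wf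
      {b | b < a ∧ Pz a b} ⟨b0, hb0, hPb0⟩
    have hF : IsF a b := ⟨hba, hPb, fun a' ha' h => hbmin a' ⟨ha'.trans hba, h⟩ ha'⟩
    have hF' : IsF (e a) (e b) := by
      have := (w.transfer hκl D.θlim D.κθ (ODl.isF (0 : Fin 2) 1) ![a, b]
        (by simp [Fin.forall_fin_two, haκ.le, (hba.trans haκ).le])).1 hF
      have h5 : IsF (oMap j a) (oMap j b) := this
      rwa [w.agree a haκ, w.agree b (hba.trans haκ)] at h5
    have hab : e b = a := by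
      rcases lt_trichotomy (e b) a with h | h | h
      · exact absurd hF'.2.1 (haF.2.2 _ h)
      · exact h
      · exact absurd haF.2.1 (hF'.2.2 _ h)
    refine hamin b ⟨hba.trans haκ, ?_⟩ hba
    rw [hab]
    exact hF
  -- conclusion
  intro l hl
  obtain ⟨τ, hτ, hτΩ, N, j, w⟩ := D.wit l hl
  refine ⟨τ, hτ, hτΩ, θ, D.θlim, D.κθ, D.θlt, N, w.mem, j, w.emb, w.map, w.sub, fun β hβ => ?_⟩
  have hsβ : Order.succ β < κ := hκl.succ_lt hβ
  have h1 : e (Order.succ β) ≤ κ :=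
    not_lt.1 (hiii _ hsβ fun a ha => hiv a (ha.trans hsβ))
  have h2 : oMap j (Order.succ β) = Order.succ (oMap j β) :=
    w.emb.oMap_succ ((hsβ.trans D.κθ).trans (Order.lt_succ θ))
  rw [← w.agree _ hsβ, h2] at h1
  exact (Order.lt_succ _).trans_le h1

end Pool.Agent.Helper90.Gss
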