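import Pool.Agent.Helper90.Gss.Ord

/-!
# The embedding relation and inaccessibility, as ordinal predicates
-/

open FirstOrder FirstOrder.Language

universe u

namespace Pool.Agent.Helper90.Gss

open ZFSet Ordinal

/-- There is an elementary `j : V_{θ+1} → N` with `N ∈ V_ζ` transitive, `j α = τ`, `V_τ ⊆ N` and
`j β < m` for all `β < α`. -/
def ER (ζ α θ τ m : Ordinal.{u}) : Prop :=
  Order.IsSuccLimit θ ∧ α < θ ∧ θ < ζ ∧ ∃ N ∈ V_ ζ, ∃ j : ZFSet.{u} → ZFSet.{u},
    Emb (Order.succ θ) N j ∧ oMap j α = τ ∧ V_ τ ⊆ N ∧ ∀ β < α, oMap j β < m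

/-- Inaccessibility: `ω < Ω` and functions from elements of `V_Ω` to `Ω` are bounded. -/
def IsIna (Ω : Ordinal.{u}) : Prop :=
  ω < Ω ∧ ∀ a ∈ V_ Ω, ∀ f : ZFSet.{u} → Ordinal.{u}, (∀ x ∈ a, f x < Ω) →
    ∃ β < Ω, ∀ x ∈ a, f x < β

theorem pair_mem_vonNeumann {ζ : Ordinal.{u}} (hζ : Order.IsSuccLimit ζ) {x y : ZFSet.{u}}
    (hx : x ∈ V_ ζ) (hy : y ∈ V_ ζ) : pair x y ∈ V_ ζ := by
  rw [mem_vonNeumann] at *
  have h : rank (pair x y) ≤ Order.succ (Order.succ (max (rank x) (rank y))) := by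
    rw [pair, rank_pair, rank_pair, rank_singleton]
    refine max_le ?_ ?_
    · exact Order.succ_le_succ (Order.succ_le_succ (le_max_left _ _))
    · refine Order.succ_le_succ (max_le ?_ ?_)
      · exact Order.succ_le_succ (le_max_left _ _)
      · exact Order.succ_le_succ (le_max_right _ _)
  exact h.trans_lt (hζ.succ_lt (hζ.succ_lt (max_lt hx hy)))

theorem prod_mem_vonNeumann {ζ : Ordinal.{u}} (hζ : Order.IsSuccLimit ζ) {x y : ZFSet.{u}}
    (hx : x ∈ V_ ζ) (hy : y ∈ V_ ζ) : prod x y ∈ V_ ζ := by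
  rw [mem_vonNeumann] at *
  have h : rank (prod x y) ≤ Order.succ (Order.succ (max (rank x) (rank y))) := by
    have h1 : prod x y ⊆ powerset (powerset (x ∪ y)) := by
      unfold prod pairSep
      exact sep_subset
    refine (rank_mono h1).trans ?_
    rw [rank_powerset, rank_powerset, rank_union]
  exact h.trans_lt (hζ.succ_lt (hζ.succ_lt (max_lt hx hy)))

theorem func_mem_vonNeumann {ζ : Ordinal.{u}} (hζ : Order.IsSuccLimit ζ) {x y G : ZFSet.{u}}
    (hx : x ∈ V_ ζ) (hy : y ∈ V_ ζ) (hG : IsFunc x y G) : G ∈ V_ ζ :=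
  mem_vonNeumann_of_subset hG.1 (prod_mem_vonNeumann hζ hx hy)

/-- The set-theoretic translation of `ER`. -/
def ERS (U S z a t r m : ZFSet.{u}) : Prop :=
  IsLimS t ∧ a ∈ t ∧ t ∈ z ∧ ∃ vz ∈ U, IsV U z vz ∧ ∃ N ∈ vz, N.IsTransitive ∧
    ∃ t' ∈ U, t' = insert t t ∧ ∃ A ∈ U, IsV U t' A ∧ ∃ G ∈ U, code A N G ∈ S ∧ pair a r ∈ G ∧
    (∃ vr ∈ U, IsV U r vr ∧ vr ⊆ N) ∧ ∀ b ∈ a, ∃ c ∈ m, pair b c ∈ G

theorem Dl.ers {α : Type} (S z a t r m : α) :
    Dl.{u} (fun U s => ERS U (s S) (s z) (s a) (s t) (s r) (s m)) := by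
  refine (isLimS t).and ((mem a t).and ((mem t z).and ?_))
  refine ex (P := fun U vz s => IsV U (s z) vz ∧ ∃ N ∈ vz, N.IsTransitive ∧
    ∃ t' ∈ U, t' = insert (s t) (s t) ∧ ∃ A ∈ U, IsV U t' A ∧ ∃ G ∈ U, code A N G ∈ s S ∧
      pair (s a) (s r) ∈ G ∧ (∃ vr ∈ U, IsV U (s r) vr ∧ vr ⊆ N) ∧
      ∀ b ∈ s a, ∃ c ∈ s m, pair b c ∈ G) ?_
  refine (isV (some z) none).and ?_
  refine bex (P := fun U N s => N.IsTransitive ∧
    ∃ t' ∈ U, t' = insert (s (some t)) (s (some t)) ∧ ∃ A ∈ U, IsV U t' A ∧ ∃ G ∈ U,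
      code A N G ∈ s (some S) ∧
      pair (s (some a)) (s (some r)) ∈ G ∧ (∃ vr ∈ U, IsV U (s (some r)) vr ∧ vr ⊆ N) ∧
      ∀ b ∈ s (some a), ∃ c ∈ s (some m), pair b c ∈ G) none ?_
  refine (isTransitive none).and ?_
  refine ex (P := fun U t' s => t' = insert (s (some (some t))) (s (some (some t))) ∧
      ∃ A ∈ U, IsV U t' A ∧ ∃ G ∈ U, code A (s none) G ∈ s (some (some S)) ∧
      pair (s (some (some a))) (s (some (some r))) ∈ G ∧
      (∃ vr ∈ U, IsV U (s (some (some r))) vr ∧ vr ⊆ s none) ∧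
      ∀ b ∈ s (some (some a)), ∃ c ∈ s (some (some m)), pair b c ∈ G) ?_
  refine (isSucc none (some (some (some t)))).and ?_
  refine ex (P := fun U A s => IsV U (s none) A ∧ ∃ G ∈ U,
      code A (s (some none)) G ∈ s (some (some (some S))) ∧
      pair (s (some (some (some a)))) (s (some (some (some r)))) ∈ G ∧
      (∃ vr ∈ U, IsV U (s (some (some (some r)))) vr ∧ vr ⊆ s (some none)) ∧
      ∀ b ∈ s (some (some (some a))), ∃ c ∈ s (some (some (some m))), pair b c ∈ G) ?_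
  refine (isV (some none) none).and ?_
  refine ex (P := fun U G s => code (s none) (s (some (some none))) G ∈
      s (some (some (some (some S)))) ∧
      pair (s (some (some (some (some a))))) (s (some (some (some (some r))))) ∈ G ∧
      (∃ vr ∈ U, IsV U (s (some (some (some (some r))))) vr ∧ vr ⊆ s (some (some none))) ∧
      ∀ b ∈ s (some (some (some (some a)))), ∃ c ∈ s (some (some (some (some m)))),
        pair b c ∈ G) ?_
  refine (codeMem _ _ _ _).and ((pairMem _ _ _).and (Dl.and ?_ ?_))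
  · refine ex (P := fun U vr s => IsV U (s (some (some (some (some (some r)))))) vr ∧
      vr ⊆ s (some (some (some none)))) ?_
    exact (isV _ _).and (subset _ _)
  · refine ball (P := fun U b s => ∃ c ∈ s (some (some (some (some (some m))))),
        pair b c ∈ s none) (some (some (some (some (some a))))) ?_
    refine bex (P := fun U c s => pair (s none) c ∈ s (some none))
      (some (some (some (some (some (some m)))))) ?_
    exact pairMem _ _ _

theorem ers_iff {U : ZFSet.{u}} {ζ : Ordinal.{u}} (h : Nice U ζ) {z a t r m : Ordinal.{u}}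
    (hz : z ≤ ζ) (hr : r ≤ ζ) :
    ERS U (S ζ) z.toZFSet a.toZFSet t.toZFSet r.toZFSet m.toZFSet ↔ ER z a t r m := by
  constructor
  · rintro ⟨h1, h2, h3, vz, hvz, hvz', N, hN, hNt, t', _, rfl, A, hAU, hA, G, hGU, hG, har,
      ⟨vr, hvr, hvr', hrN⟩, hb⟩
    rw [isLimS_toZFSet] at h1
    rw [toZFSet_mem_toZFSet_iff] at h2 h3
    have hvz2 : vz = V_ z := (h.isV_iff z hz vz hvz).1 hvz'
    subst hvz2
    have hvr2 : vr = V_ r := (h.isV_iff r hr vr hvr).1 hvr'
    subst hvr2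
    have hts : insert t.toZFSet t.toZFSet = (Order.succ t).toZFSet := by
      rw [← toZFSet_add_one]; rfl
    rw [hts] at hA
    have htz : Order.succ t ≤ ζ := (Order.succ_le_of_lt h3).trans hz
    have hA2 : A = V_ (Order.succ t) := (h.isV_iff _ htz A hAU).1 hA
    subst hA2
    obtain ⟨_, hGf, hGe⟩ := code_mem_S.1 hG
    have E : Emb (Order.succ t) N (app G) := ⟨hNt, hGe⟩
    refine ⟨h1, h2, h3, N, hN, app G, E, ?_, hrN, ?_⟩
    · have : app G a.toZFSet = r.toZFSet :=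
        app_eq hGf (toZFSet_mem_vonNeumann.2 (h2.trans (Order.lt_succ t))) har
      rw [oMap, this, rank_toZFSet]
    · intro β hβ
      obtain ⟨c, hc, hbc⟩ := hb _ (toZFSet_mem_toZFSet_iff.2 hβ)
      have : app G β.toZFSet = c :=
        app_eq hGf (toZFSet_mem_vonNeumann.2 ((hβ.trans h2).trans (Order.lt_succ t))) hbc
      obtain ⟨d, hd, rfl⟩ := mem_toZFSet_iff.1 hc
      rw [oMap, this, rank_toZFSet]
      exact hd
  · rintro ⟨h1, h2, h3, N, hN, j, E, hj, hrN, hb⟩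
    have hts : insert t.toZFSet t.toZFSet = (Order.succ t).toZFSet := by
      rw [← toZFSet_add_one]; rfl
    have htz : Order.succ t ≤ ζ := (Order.succ_le_of_lt h3).trans hz
    have htz' : Order.succ t < ζ := h.limit.succ_lt (h3.trans_le hz)
    have hNζ : N ∈ V_ ζ := vonNeumann_subset_of_le hz hN
    have hAζ : V_ (Order.succ t) ∈ V_ ζ := vonNeumann_mem_vonNeumann.2 htz'
    have hmap : ∀ x ∈ V_ (Order.succ t), j x ∈ N := fun x hx => E.mapsTo hx
    have hGf : IsFunc (V_ (Order.succ t)) N (graphOn (V_ (Order.succ t)) j) := isFunc_graphOn hmap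
    have hGζ : graphOn (V_ (Order.succ t)) j ∈ V_ ζ := func_mem_vonNeumann h.limit hAζ hNζ hGf
    have haV : a.toZFSet ∈ V_ (Order.succ t) :=
      toZFSet_mem_vonNeumann.2 (h2.trans (Order.lt_succ t))
    refine ⟨isLimS_toZFSet.2 h1, toZFSet_mem_toZFSet_iff.2 h2, toZFSet_mem_toZFSet_iff.2 h3,
      V_ z, h.vonNeumann_mem hz, (h.isV_iff z hz _ (h.vonNeumann_mem hz)).2 rfl, N, hN, E.trans,
      _, ?_, rfl, V_ (Order.succ t), h.vonNeumann_mem htz, ?_,
      graphOn (V_ (Order.succ t)) j, h.mem_of_mem hGζ, ?_, ?_,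
      ⟨V_ r, h.vonNeumann_mem hr, (h.isV_iff r hr _ (h.vonNeumann_mem hr)).2 rfl, hrN⟩, ?_⟩
    · rw [hts]
      exact h.ordinal_mem htz
    · rw [hts]
      exact (h.isV_iff _ htz _ (h.vonNeumann_mem htz)).2 rfl
    · rw [code_mem_S]
      refine ⟨pair_mem_vonNeumann h.limit hGζ (pair_mem_vonNeumann h.limit hAζ hNζ), hGf, ?_⟩
      exact E.elem.congr fun x hx => (app_graphOn hmap hx).symm
    · rw [pair_mem_iff hGf]
      refine ⟨haV, ?_⟩
      rw [app_graphOn hmap haV, E.map_toZFSet (h2.trans (Order.lt_succ t)), hj]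
    · intro b hb'
      obtain ⟨β, hβ, rfl⟩ := mem_toZFSet_iff.1 hb'
      have hβt : β < Order.succ t := (hβ.trans h2).trans (Order.lt_succ t)
      refine ⟨(oMap j β).toZFSet, toZFSet_mem_toZFSet_iff.2 (hb β hβ), ?_⟩
      rw [pair_mem_iff hGf]
      refine ⟨toZFSet_mem_vonNeumann.2 hβt, ?_⟩
      rw [app_graphOn hmap (toZFSet_mem_vonNeumann.2 hβt), E.map_toZFSet hβt]

theorem ODl.er {α : Type} (z a t r m : α) :
    ODl.{u} (fun s => ER (s z) (s a) (s t) (s r) (s m)) :=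
  ⟨_, Dl.ers none (some z) (some a) (some t) (some r) (some m), fun _ _ hU s hs =>
    ers_iff hU (hs z) (hs r)⟩

/-- The set-theoretic translation of `x < z ∧ IsIna x`. -/
def InaS (U z x : ZFSet.{u}) : Prop :=
  x ∈ z ∧ (∃ w ∈ x, IsLimS w) ∧ ∃ vx ∈ U, IsV U x vx ∧ ∀ a ∈ vx, ∀ G ∈ U, IsFunc a x G →
    ∃ b ∈ x, ∀ t ∈ a, ∃ c ∈ b, pair t c ∈ G

theorem Dl.inaS {α : Type} (z x : α) : Dl.{u} (fun U s => InaS U (s z) (s x)) := by
  refine (mem x z).and (Dl.and ?_ ?_)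
  · exact bex (P := fun _ w _ => IsLimS w) x (isLimS none)
  · refine ex (P := fun U vx s => IsV U (s x) vx ∧ ∀ a ∈ vx, ∀ G ∈ U, IsFunc a (s x) G →
      ∃ b ∈ s x, ∀ t ∈ a, ∃ c ∈ b, pair t c ∈ G) ?_
    refine (isV _ _).and ?_
    refine ball (P := fun U a s => ∀ G ∈ U, IsFunc a (s (some x)) G →
      ∃ b ∈ s (some x), ∀ t ∈ a, ∃ c ∈ b, pair t c ∈ G) none ?_
    refine all (P := fun U G s => IsFunc (s none) (s (some (some x))) G →
      ∃ b ∈ s (some (some x)), ∀ t ∈ s none, ∃ c ∈ b, pair t c ∈ G) ?_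
    refine (isFunc _ _ _).imp ?_
    refine bex (P := fun U b s => ∀ t ∈ s (some none), ∃ c ∈ b, pair t c ∈ s none)
      (some (some (some x))) ?_
    refine ball (P := fun U t s => ∃ c ∈ s none, pair t c ∈ s (some none)) (some (some none)) ?_
    refine bex (P := fun U c s => pair (s none) c ∈ s (some (some none))) (some none) ?_
    exact pairMem _ _ _

theorem inaS_iff {U : ZFSet.{u}} {ζ : Ordinal.{u}} (h : Nice U ζ) {z x : Ordinal.{u}}
    (hz : z ≤ ζ) (hx : x ≤ ζ) : InaS U z.toZFSet x.toZFSet ↔ x < z ∧ IsIna x := by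
  unfold InaS IsIna
  rw [toZFSet_mem_toZFSet_iff]
  refine and_congr_right fun hxz => ?_
  have hxζ : x < ζ := hxz.trans_le hz
  refine and_congr ?_ ?_
  · constructor
    · rintro ⟨w, hw, hl⟩
      obtain ⟨a, ha, rfl⟩ := mem_toZFSet_iff.1 hw
      rw [isLimS_toZFSet] at hl
      exact (omega0_le_of_isSuccLimit hl).trans_lt ha
    · intro hω
      exact ⟨_, toZFSet_mem_toZFSet_iff.2 hω, isLimS_toZFSet.2 isSuccLimit_omega0⟩
  · constructor
    · rintro ⟨vx, hvx, hvx', H⟩ a ha f hf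
      have hvx2 : vx = V_ x := (h.isV_iff x hx vx hvx).1 hvx'
      subst hvx2
      have hmap : ∀ y ∈ a, (fun y => (f y).toZFSet) y ∈ x.toZFSet := fun y hy =>
        toZFSet_mem_toZFSet_iff.2 (hf y hy)
      have hG := isFunc_graphOn (A := a) (j := fun y => (f y).toZFSet) hmap
      have hGU : graphOn a (fun y => (f y).toZFSet) ∈ U := h.mem_of_mem
        (func_mem_vonNeumann h.limit (vonNeumann_subset_of_le hxζ.le ha)
          (toZFSet_mem_vonNeumann.2 hxζ) hG)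
      obtain ⟨b, hb, H⟩ := H a ha _ hGU hG
      obtain ⟨β, hβ, rfl⟩ := mem_toZFSet_iff.1 hb
      refine ⟨β, hβ, fun y hy => ?_⟩
      obtain ⟨c, hc, hyc⟩ := H y hy
      have := app_eq hG hy hyc
      rw [app_graphOn hmap hy] at this
      rw [← this] at hc
      exact toZFSet_mem_toZFSet_iff.1 hc
    · intro H
      refine ⟨V_ x, h.vonNeumann_mem hx, (h.isV_iff x hx _ (h.vonNeumann_mem hx)).2 rfl, ?_⟩
      intro a ha G _ hG
      have hval : ∀ y ∈ a, ∃ c < x, c.toZFSet = app G y := fun y hy =>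
        mem_toZFSet_iff.1 (app_mem hG hy)
      obtain ⟨β, hβ, H⟩ := H a ha (fun y => rank (app G y)) (fun y hy => by
        obtain ⟨c, hc, hc'⟩ := hval y hy
        rw [← hc', rank_toZFSet]
        exact hc)
      refine ⟨β.toZFSet, toZFSet_mem_toZFSet_iff.2 hβ, fun y hy => ⟨app G y, ?_, pair_app hG hy⟩⟩
      obtain ⟨c, hc, hc'⟩ := hval y hy
      have := H y hy
      rw [← hc', rank_toZFSet] at this
      rw [← hc']
      exact toZFSet_mem_toZFSet_iff.2 this

theorem ODl.ina {α : Type} (z x : α) : ODl.{u} (fun s => s x < s z ∧ IsIna (s x)) :=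
  ⟨_, Dl.inaS (some z) (some x), fun _ _ hU s hs => inaS_iff hU (hs z) (hs x)⟩

end Pool.Agent.Helper90.Gss
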