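import Pool.Agent.Helper90.Gss.Emb

/-!
# Satisfaction relativized to a set, and restriction of elementary maps
-/

open FirstOrder FirstOrder.Language

universe u

namespace Pool.Agent.Helper90.Gss

open ZFSet Ordinal

/-- Satisfaction in the structure `A`, with assignments allowed to be arbitrary sets. -/
def SatB (A : ZFSet.{u}) {α : Type} : ∀ {n : ℕ}, LSet.BoundedFormula α n →
    (α → ZFSet.{u}) → (Fin n → ZFSet.{u}) → Prop
  | _, .falsum, _, _ => False
  | _, .equal t₁ t₂, v, xs => t₁.realize (Sum.elim v xs) = t₂.realize (Sum.elim v xs)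
  | _, .rel R ts, v, xs => Structure.RelMap R (fun i => (ts i).realize (Sum.elim v xs))
  | _, .imp φ ψ, v, xs => SatB A φ v xs → SatB A ψ v xs
  | _, .all φ, v, xs => ∀ x ∈ A, SatB A φ v (Fin.snoc xs x)

theorem realize_term_coe {A : ZFSet.{u}} {α : Type} (t : LSet.Term α) (v : α → ↥A) :
    ((t.realize v : ↥A) : ZFSet.{u}) = t.realize (fun i => (v i : ZFSet.{u})) := by
  cases t with
  | var i => rfl
  | func f ts => exact Empty.elim f

theorem sum_elim_coe {A : ZFSet.{u}} {α β : Type} (v : α → ↥A) (xs : β → ↥A) :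
    (fun i => ((Sum.elim v xs i : ↥A) : ZFSet.{u})) =
      Sum.elim (fun i => (v i : ZFSet.{u})) (fun i => (xs i : ZFSet.{u})) := by
  funext i
  cases i <;> rfl

theorem realize_iff_satB {A : ZFSet.{u}} {α : Type} {n : ℕ} (φ : LSet.BoundedFormula α n)
    (v : α → ↥A) (xs : Fin n → ↥A) :
    φ.Realize v xs ↔ SatB A φ (fun i => (v i : ZFSet.{u})) (fun i => (xs i : ZFSet.{u})) := by
  induction φ with
  | falsum => exact Iff.rfl
  | equal t₁ t₂ =>
    show t₁.realize (Sum.elim v xs) = t₂.realize (Sum.elim v xs) ↔ _ = _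
    rw [Subtype.ext_iff, realize_term_coe, realize_term_coe, sum_elim_coe]
  | rel R ts =>
    cases R
    show (((ts 0).realize (Sum.elim v xs) : ↥A) : ZFSet.{u}) ∈
        (((ts 1).realize (Sum.elim v xs) : ↥A) : ZFSet.{u})
      ↔ (ts 0).realize (M := ZFSet.{u}) (Sum.elim _ _) ∈
        (ts 1).realize (M := ZFSet.{u}) (Sum.elim _ _)
    rw [realize_term_coe, realize_term_coe, sum_elim_coe]
  | imp φ ψ ih1 ih2 =>
    rw [BoundedFormula.realize_imp, ih1, ih2]
    exact Iff.rfl
  | all φ ih =>
    rw [BoundedFormula.realize_all]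
    have key : ∀ x : ↥A, (fun i => ((Fin.snoc (α := fun _ => ↥A) xs x i : ↥A) : ZFSet.{u})) =
        Fin.snoc (α := fun _ => ZFSet.{u}) (fun i => (xs i : ZFSet.{u})) (x : ZFSet.{u}) := by
      intro x
      funext i
      refine Fin.lastCases ?_ (fun i => ?_) i <;> simp
    constructor
    · intro h x hx
      have := (ih _).1 (h ⟨x, hx⟩)
      rw [key] at this
      exact this
    · intro h x
      refine (ih _).2 ?_
      rw [key]
      exact h x x.2

/-- Satisfaction in a set is definable over transitive structures containing the set. -/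
theorem Dl.satB {α : Type} {n : ℕ} (φ : LSet.BoundedFormula α n) :
    Dl.{u} (α := Option (α ⊕ Fin n)) (fun _ s => SatB (s none) φ
      (fun a => s (some (Sum.inl a))) (fun i => s (some (Sum.inr i)))) := by
  induction φ with
  | falsum => exact Dl.false
  | @equal n t₁ t₂ =>
    cases t₁ with
    | func f ts => exact Empty.elim f
    | var a =>
      cases t₂ with
      | func f ts => exact Empty.elim f
      | var b =>
        refine (Dl.eq (some a) (some b)).congr fun U _ s _ => ?_
        cases a <;> cases b <;> exact Iff.rfl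
  | @rel n l R ts =>
    cases R
    obtain ⟨a, ha⟩ : ∃ a, ts 0 = Term.var a := by
      cases h : ts 0 with
      | func f ts => exact Empty.elim f
      | var a => exact ⟨a, rfl⟩
    obtain ⟨b, hb⟩ : ∃ a, ts 1 = Term.var a := by
      cases h : ts 1 with
      | func f ts => exact Empty.elim f
      | var a => exact ⟨a, rfl⟩
    refine (Dl.mem (some a) (some b)).congr fun U _ s _ => ?_
    show _ ↔ (ts 0).realize (M := ZFSet.{u}) (Sum.elim _ _) ∈
      (ts 1).realize (M := ZFSet.{u}) (Sum.elim _ _)
    rw [ha, hb]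
    cases a <;> cases b <;> exact Iff.rfl
  | imp φ ψ ih1 ih2 => exact ih1.imp ih2
  | @all n φ ih =>
    refine ball (P := fun _ x s => SatB (s none) φ (fun a => s (some (Sum.inl a)))
      (Fin.snoc (fun i => s (some (Sum.inr i))) x)) none ?_
    let g : Option (α ⊕ Fin (n + 1)) → Option (Option (α ⊕ Fin n)) := fun o =>
      match o with
      | none => some none
      | some (Sum.inl a) => some (some (Sum.inl a))
      | some (Sum.inr i) => Fin.lastCases (motive := fun _ => Option (Option (α ⊕ Fin n)))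
          none (fun i => some (some (Sum.inr i))) i
    refine (ih.relabel g).congr fun U _ s _ => ?_
    have key : (fun i => s (g (some (Sum.inr i)))) =
        Fin.snoc (α := fun _ => ZFSet.{u}) (fun i => s (some (some (Sum.inr i)))) (s none) := by
      funext i
      refine Fin.lastCases ?_ (fun i => ?_) i <;> simp [g]
    rw [key]

/-- Satisfaction of a formula in a set, as a definable predicate in any context. -/
theorem Dl.sat {α β : Type} (φ : LSet.Formula β) (a : α) (v : β → α) :
    Dl.{u} (fun _ (s : α → ZFSet.{u}) => SatB (s a) φ (fun i => s (v i)) default) := by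
  refine ((Dl.satB φ).relabel (fun o : Option (β ⊕ Fin 0) => match o with
    | none => a
    | some (Sum.inl b) => v b
    | some (Sum.inr i) => i.elim0)).congr fun U _ s _ => ?_
  have : (fun i : Fin 0 => s (match (some (Sum.inr i) : Option (β ⊕ Fin 0)) with
    | none => a
    | some (Sum.inl b) => v b
    | some (Sum.inr i) => i.elim0)) = default := Subsingleton.elim _ _
  rw [this]

theorem formula_realize_iff_satB {A : ZFSet.{u}} {α : Type} (φ : LSet.Formula α) (v : α → ↥A) :
    φ.Realize v ↔ SatB A φ (fun i => (v i : ZFSet.{u})) default := by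
  rw [Formula.Realize, realize_iff_satB]
  have : (fun i : Fin 0 => (((default : Fin 0 → ↥A) i : ↥A) : ZFSet.{u})) = default :=
    Subsingleton.elim _ _
  rw [this]

theorem isElemMap_iff {A B : ZFSet.{u}} {j : ZFSet.{u} → ZFSet.{u}} :
    IsElemMap A B j ↔ (∀ x ∈ A, j x ∈ B) ∧ ∀ (n : ℕ) (φ : LSet.Formula (Fin n))
      (s : Fin n → ZFSet.{u}), (∀ i, s i ∈ A) →
        (SatB A φ s default ↔ SatB B φ (fun i => j (s i)) default) := by
  constructor
  · intro h
    refine ⟨fun x hx => h.mapsTo hx, fun n φ s hs => ?_⟩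
    obtain ⟨f, hf⟩ := h
    have h1 := formula_realize_iff_satB (A := A) φ (fun i => ⟨s i, hs i⟩)
    have h2 := formula_realize_iff_satB (A := B) φ (f ∘ fun i => ⟨s i, hs i⟩)
    rw [f.map_formula, h1] at h2
    refine h2.trans (iff_of_eq ?_)
    congr 1
    funext i
    exact hf _
  · rintro ⟨h1, h2⟩
    refine ⟨⟨fun x => ⟨j x, h1 x x.2⟩, fun n φ x => ?_⟩, fun x => rfl⟩
    rw [formula_realize_iff_satB, formula_realize_iff_satB]
    exact (h2 n φ (fun i => (x i : ZFSet)) (fun i => (x i).2)).symm

theorem IsElemMap.congr {A B : ZFSet.{u}} {j k : ZFSet.{u} → ZFSet.{u}} (h : IsElemMap A B j)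
    (e : ∀ x ∈ A, j x = k x) : IsElemMap A B k := by
  obtain ⟨f, hf⟩ := h
  exact ⟨f, fun x => (hf x).trans (e x x.2)⟩

theorem IsElemMap.comp {A B C : ZFSet.{u}} {j k : ZFSet.{u} → ZFSet.{u}}
    (hk : IsElemMap B C k) (hj : IsElemMap A B j) : IsElemMap A C (fun x => k (j x)) := by
  obtain ⟨f, hf⟩ := hj
  obtain ⟨g, hg⟩ := hk
  refine ⟨g.comp f, fun x => ?_⟩
  rw [ElementaryEmbedding.comp_apply, hg, hf]

/-- The restriction of an elementary map between transitive sets to an element of the domain. -/
theorem IsElemMap.restrict {U W : ZFSet.{u}} {J : ZFSet.{u} → ZFSet.{u}} (hU : U.IsTransitive)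
    (hW : W.IsTransitive) (hJ : IsElemMap U W J) {A : ZFSet.{u}} (hA : A ∈ U) :
    IsElemMap A (J A) J := by
  rw [isElemMap_iff]
  constructor
  · intro x hx
    exact ((Dl.mem (0 : Fin 2) 1).transfer hU hW hJ ![x, A]
      (by simp only [Fin.forall_fin_two]; exact ⟨hU.mem_trans hx hA, hA⟩)).1 hx
  · intro n φ s hs
    have hD := Dl.sat.{u} (α := Option (Fin n)) φ none some
    exact hD.transfer hU hW hJ (fun o => o.elim A s) (by
      intro i
      cases i with
      | none => exact hA
      | some i => exact hU.mem_trans (hs i) hA)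

theorem Emb.restrict {ϑ : Ordinal.{u}} {M : ZFSet.{u}} {J : ZFSet.{u} → ZFSet.{u}}
    (E : Emb ϑ M J) {α : Ordinal.{u}} (hα : α < ϑ) : Emb α (J (V_ α)) J where
  trans := (E.isTransitive_iff (vonNeumann_mem_vonNeumann.2 hα)).2 (isTransitive_vonNeumann α)
  elem := E.elem.restrict (isTransitive_vonNeumann ϑ) E.trans (vonNeumann_mem_vonNeumann.2 hα)

end Pool.Agent.Helper90.Gss
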